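import Pool.Agent.Helper9.Res.LA5
import Pool.Agent.Helper1.Res.Three
import Pool.Agent.Helper54.Res.Cell
import Pool.Agent.Helper70.Res.Light

/-!
# Route A: the perfect matchings of the cells of two blocks

`{ua, vb, tc}` is a perfect matching of the cells of the blocks `e = {u, v, t}`, `f = {a, b, c}`.
`tau` of a cell is `3 lam - m`, where `m` is the number of missing triples of `VS P` through the
cell.  The sum of `tau` over the matching is bounded in terms of `s`, `j` and the types.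
-/

namespace Helper9.Res

open Finset Res12 RouteA Helper1.Res Helper54.Res Helper70.Res

set_option linter.unusedSectionVars false

variable {V : Type} [Fintype V] [DecidableEq V]
variable {F P : Finset (Finset V)} {s j : ℕ} {x y : V}

/-- `3 λ - m` of a cell -/
def tau (F P : Finset (Finset V)) (e f : Finset V) (a b : V) : ℤ :=
  3 * lam F P a b - ((m3 F P e f a b).card : ℤ) - ((m2 F e f a b).card : ℤ)

/-- `{ua, vb, tc}` is a perfect matching of the cells of the blocks `e`, `f` -/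
structure Pm (P : Finset (Finset V)) (e f : Finset V) (u v t a b c : V) : Prop where
  he : e ∈ P
  hf : f ∈ P
  hef : e ≠ f
  hu : u ∈ e
  hv : v ∈ e
  ht : t ∈ e
  ha : a ∈ f
  hb : b ∈ f
  hc : c ∈ f
  huv : u ≠ v
  hut : u ≠ t
  hvt : v ≠ t
  hab : a ≠ b
  hac : a ≠ c
  hbc : b ≠ c

section
variable {e f : Finset V} {u v t a b c : V}

theorem Pm.rot (p : Pm P e f u v t a b c) : Pm P e f v t u b c a :=
  ⟨p.he, p.hf, p.hef, p.hv, p.ht, p.hu, p.hb, p.hc, p.ha, p.hvt, p.huv.symm, p.hut.symm, p.hbc,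
    p.hab.symm, p.hac.symm⟩

theorem Pm.swap (p : Pm P e f u v t a b c) : Pm P e f v u t b a c :=
  ⟨p.he, p.hf, p.hef, p.hv, p.hu, p.ht, p.hb, p.ha, p.hc, p.huv.symm, p.hvt, p.hut, p.hab.symm,
    p.hbc, p.hac⟩

theorem Pm.swap23 (p : Pm P e f u v t a b c) : Pm P e f u t v a c b :=
  ⟨p.he, p.hf, p.hef, p.hu, p.ht, p.hv, p.ha, p.hc, p.hb, p.hut, p.huv, p.hvt.symm, p.hac,
    p.hab, p.hbc.symm⟩

/-- the same rows, the last two columns exchanged -/
theorem Pm.cols (p : Pm P e f u v t a b c) : Pm P e f u v t a c b :=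
  ⟨p.he, p.hf, p.hef, p.hu, p.hv, p.ht, p.ha, p.hc, p.hb, p.huv, p.hut, p.hvt, p.hac,
    p.hab, p.hbc.symm⟩

/-- the transposed matching -/
theorem Pm.tr (p : Pm P e f u v t a b c) : Pm P f e a b c u v t :=
  ⟨p.hf, p.he, p.hef.symm, p.ha, p.hb, p.hc, p.hu, p.hv, p.ht, p.hab, p.hac, p.hbc, p.huv,
    p.hut, p.hvt⟩

end

theorem exists_three {g : Finset V} (h : g.card = 3) : ∃ p q r : V, p ∈ g ∧ q ∈ g ∧ r ∈ g ∧
    p ≠ q ∧ p ≠ r ∧ q ≠ r ∧ g = {p, q, r} := by
  obtain ⟨p, q, r, h1, h2, h3, rfl⟩ := card_eq_three.1 h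
  exact ⟨p, q, r, by simp, by simp, by simp, h1, h2, h3, rfl⟩

section
variable (h : SetUp F s j P x y)
include h

/-- the conflict in numbers, all points given by membership -/
theorem conf3 {e f g : Finset V} {u v t a b c : V} (p : Pm P e f u v t a b c) (hg : g ∈ P)
    (heg : e ≠ g) (hfg : f ≠ g) (hl : (lb F P x y u a).Nonempty) {p1 p2 p3 : V} (h1 : p1 ∈ g)
    (h2 : p2 ∈ g) (h3 : p3 ∈ g) (h12 : p1 ≠ p2) (h13 : p1 ≠ p3) (h23 : p2 ≠ p3) :
    1 ≤ ms F v b p1 + ms F t c p2 + ep F x y p3 := by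
  obtain ⟨w, hw⟩ := hl
  obtain ⟨w1, w2, w3, w4⟩ := mem_lb.1 hw
  by_contra hc
  push Not at hc
  have k1 : ms F v b p1 = 0 := by omega
  have k2 : ms F t c p2 = 0 := by omega
  have k3 : ep F x y p3 = 0 := by omega
  have := conflict (toMM h) h.avx h.avy p.he p.hf hg p.hef heg hfg p.hu p.hv p.ht p.ha p.hb p.hc
    h1 h2 h3 p.huv p.hut p.hvt p.hab p.hac p.hbc h12 h13 h23 w2 w3 w4 w1 (mem_of_ms k1)
    (mem_of_ms k2)
  unfold ep at k3
  rw [if_neg this] at k3
  omega

/-- one label, third block `g` -/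
theorem pair_row' {e f g : Finset V} {u v t a b c : V} (p : Pm P e f u v t a b c) (hg : g ∈ P)
    (heg : e ≠ g) (hfg : f ≠ g) (hl : (lb F P x y u a).Nonempty) :
    3 ≤ ∑ z ∈ g, ms F v b z + ∑ z ∈ g, ms F t c z + ty F x y g := by
  obtain ⟨p1, p2, p3, h1, h2, h3, h12, h13, h23, hge⟩ := exists_three (h.threeP g hg)
  have k1 := conf3 h p hg heg hfg hl h1 h2 h3 h12 h13 h23
  have k2 := conf3 h p hg heg hfg hl h2 h3 h1 h23 h12.symm h13.symm
  have k3 := conf3 h p hg heg hfg hl h3 h1 h2 h13.symm h23.symm h12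
  rw [ty_eq, hge, sum3 h12 h13 h23, sum3 h12 h13 h23, sum3 h12 h13 h23]
  omega

/-- **(B)** one label `u a`: the two other cells of the matching together -/
theorem m3_pair {e f : Finset V} {u v t a b c : V} (p : Pm P e f u v t a b c)
    (hl : (lb F P x y u a).Nonempty) :
    3 * s + (ty F x y e + ty F x y f) ≤
      (m3 F P e f v b).card + (m3 F P e f t c).card + j + 6 := by
  have hc := card_third h p.he p.hf p.hef
  have ht := sum_ty_third h p.he p.hf p.hef
  have h2 : ∑ g ∈ P \ {e, f}, 3 ≤ ∑ g ∈ P \ {e, f},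
      (∑ z ∈ g, ms F v b z + ∑ z ∈ g, ms F t c z + ty F x y g) := by
    refine sum_le_sum fun g hg => ?_
    obtain ⟨g1, g2, g3⟩ := third_ne h hg
    exact pair_row' h p g1 g2 g3 hl
  rw [sum_const, smul_eq_mul, sum_add_distrib, sum_add_distrib, ← card_m3 h, ← card_m3 h] at h2
  omega

/-- two labels with different representatives: the third cell against a third block -/
theorem zero_row {e f g : Finset V} {u v t a b c : V} (p : Pm P e f u v t a b c) (hg : g ∈ P)
    (heg : e ≠ g) (hfg : f ≠ g) {w w' : V} (hw : w ∈ lb F P x y u a) (hw' : w' ∈ lb F P x y v b)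
    (hww : w ≠ w') : 3 ≤ ∑ z ∈ g, ms F t c z + ty F x y g := by
  obtain ⟨w1, w2, w3, w4⟩ := mem_lb.1 hw
  obtain ⟨w1', w2', w3', w4'⟩ := mem_lb.1 hw'
  have key : ∀ z z' : V, z ∈ g → z' ∈ g → z ≠ z' → 1 ≤ ms F t c z + ep F x y z' := by
    intro z z' hz hz' hzz
    by_contra hcon
    push Not at hcon
    have k1 : ms F t c z = 0 := by omega
    have k3 : ep F x y z' = 0 := by omega
    have := conflict_two (toMM h) h.avx h.avy p.he p.hf hg p.hef heg hfg p.hu p.hv p.ht p.ha p.hb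
      p.hc hz hz' p.huv p.hut p.hvt p.hab p.hac p.hbc hzz w2 w3 w4 w2' w3' w4' hww w1 w1'
      (mem_of_ms k1)
    unfold ep at k3
    rw [if_neg this] at k3
    omega
  obtain ⟨p1, p2, p3, h1, h2, h3, h12, h13, h23, hge⟩ := exists_three (h.threeP g hg)
  have k1 := key p1 p2 h1 h2 h12
  have k2 := key p2 p3 h2 h3 h23
  have k3 := key p3 p1 h3 h1 h13.symm
  rw [ty_eq, hge, sum3 h12 h13 h23, sum3 h12 h13 h23]
  omega

/-- **(C)** two labels with different representatives: the third cell -/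
theorem m3_zero {e f : Finset V} {u v t a b c : V} (p : Pm P e f u v t a b c) {w w' : V}
    (hw : w ∈ lb F P x y u a) (hw' : w' ∈ lb F P x y v b) (hww : w ≠ w') :
    3 * s + (ty F x y e + ty F x y f) ≤ (m3 F P e f t c).card + j + 6 := by
  have hc := card_third h p.he p.hf p.hef
  have ht := sum_ty_third h p.he p.hf p.hef
  have h2 : ∑ g ∈ P \ {e, f}, 3 ≤ ∑ g ∈ P \ {e, f}, (∑ z ∈ g, ms F t c z + ty F x y g) := by
    refine sum_le_sum fun g hg => ?_
    obtain ⟨g1, g2, g3⟩ := third_ne h hg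
    exact zero_row h p g1 g2 g3 hw hw' hww
  rw [sum_const, smul_eq_mul, sum_add_distrib, ← card_m3 h] at h2
  omega

/-- a block is the set of three different points of it -/
theorem block_eq {e : Finset V} (he : e ∈ P) {u v t : V} (hu : u ∈ e) (hv : v ∈ e) (ht : t ∈ e)
    (huv : u ≠ v) (hut : u ≠ t) (hvt : v ≠ t) : ({u, v, t} : Finset V) = e := by
  apply eq_of_subset_of_card_le
  · intro z hz
    simp only [mem_insert, mem_singleton] at hz
    rcases hz with rfl | rfl | rfl <;> assumption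
  · rw [h.threeP e he, card_eq_three.2 ⟨u, v, t, huv, hut, hvt, rfl⟩]

/-- **(C)** two labels with different representatives: the third cell is in `J × J` -/
theorem zero_J {e f : Finset V} {u v t a b c : V} (p : Pm P e f u v t a b c) {w w' : V}
    (hw : w ∈ lb F P x y u a) (hw' : w' ∈ lb F P x y v b) (hww : w ≠ w') :
    t ∉ N F x y ∧ c ∉ N F x y := by
  obtain ⟨w1, w2, w3, w4⟩ := mem_lb.1 hw
  obtain ⟨w1', w2', w3', w4'⟩ := mem_lb.1 hw'
  have e1 := block_eq h p.he p.hu p.hv p.ht p.huv p.hut p.hvt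
  have e2 := block_eq h p.hf p.ha p.hb p.hc p.hab p.hac p.hbc
  refine two_labels (toMM h) h.avx h.avy (u := u) (v := v) (t := t) (a := a) (b := b) (c := c)
    ?_ ?_ ?_ w2 w2' w3 w4 w3' w4' hww w1 w1'
  · rw [e1]; exact p.he
  · rw [e2]; exact p.hf
  · rw [e1, e2]; exact p.hef

/-- **(K1)** the three outside neighbourhoods have no distinct representatives -/
theorem norep {e f : Finset V} {u v t a b c : V} (p : Pm P e f u v t a b c) :
    NoRep (N F u a \ VS P) (N F v b \ VS P) (N F t c \ VS P) := by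
  intro w1 h1 w2 h2 w3 h3
  rw [mem_sdiff, mem_N] at h1 h2 h3
  by_contra hcon
  push Not at hcon
  obtain ⟨n12, n13, n23⟩ := hcon
  have hM := toMM h
  have nef : ∀ {i k : V}, i ∈ e → k ∈ f → i ≠ k := fun hi hj => hM.neq p.he p.hf p.hef hi hj
  refine two_blocks hM p.he p.hf h1.1 h2.1 h3.1
    (disj3 ⟨p.huv, nef p.hu p.hb, out_ne p.he p.hu h2.2, (nef p.hv p.ha).symm, p.hab,
      out_ne p.hf p.ha h2.2, (out_ne p.he p.hv h1.2).symm, (out_ne p.hf p.hb h1.2).symm, n12⟩)
    (disj3 ⟨p.hut, nef p.hu p.hc, out_ne p.he p.hu h3.2, (nef p.ht p.ha).symm, p.hac,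
      out_ne p.hf p.ha h3.2, (out_ne p.he p.ht h1.2).symm, (out_ne p.hf p.hc h1.2).symm, n13⟩)
    (disj3 ⟨p.hvt, nef p.hv p.hc, out_ne p.he p.hv h3.2, (nef p.ht p.hb).symm, p.hbc,
      out_ne p.hf p.hb h3.2, (out_ne p.he p.ht h2.2).symm, (out_ne p.hf p.hc h2.2).symm, n23⟩)
    ?_ ?_ ?_
  · intro z hz
    simp only [mem_insert, mem_singleton] at hz
    rcases hz with rfl | rfl | rfl
    · exact Or.inl p.hu
    · exact Or.inr (Or.inl p.ha)
    · exact Or.inr (Or.inr h1.2)
  · intro z hz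
    simp only [mem_insert, mem_singleton] at hz
    rcases hz with rfl | rfl | rfl
    · exact Or.inl p.hv
    · exact Or.inr (Or.inl p.hb)
    · exact Or.inr (Or.inr h2.2)
  · intro z hz
    simp only [mem_insert, mem_singleton] at hz
    rcases hz with rfl | rfl | rfl
    · exact Or.inl p.ht
    · exact Or.inr (Or.inl p.hc)
    · exact Or.inr (Or.inr h3.2)

/-- **(A)** the codegree condition -/
theorem tau_le {e f : Finset V} (he : e ∈ P) (hf : f ∈ P) (hef : e ≠ f) {a b : V} (ha : a ∈ e)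
    (hb : b ∈ f) : tau F P e f a b ≤ 2 * lam F P a b - j := by
  have := codeg_cell h he hf hef ha hb
  unfold tau
  omega

/-- **(B)** -/
theorem tau_pair {e f : Finset V} {u v t a b c : V} (p : Pm P e f u v t a b c)
    (hl : (lb F P x y u a).Nonempty) :
    tau F P e f v b + tau F P e f t c ≤ 3 * (lam F P v b + lam F P t c) - 3 * s + 6 +
      (j - (ty F x y e + ty F x y f)) := by
  have := m3_pair h p hl
  unfold tau
  omega

/-- **(C)** -/
theorem tau_zero {e f : Finset V} {u v t a b c : V} (p : Pm P e f u v t a b c) {w w' : V}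
    (hw : w ∈ lb F P x y u a) (hw' : w' ∈ lb F P x y v b) (hww : w ≠ w') :
    tau F P e f t c ≤ 3 * lam F P t c - 3 * s + 6 + (j - (ty F x y e + ty F x y f)) := by
  have := m3_zero h p hw hw' hww
  unfold tau
  omega

/-- the label bound -/
theorem lam_le (a b : V) : lam F P a b ≤ s := by
  have := h.hyp.switch h.sub h.mat h.card a b
  unfold lam dW
  omega

end

end Helper9.Res
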