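import Pool.Agent.Helper9.Res.PM
import Pool.Agent.Helper13.Res.Caps

/-!
# Route A: the classification of the perfect matchings of the cells of two blocks
-/

namespace Helper9.Res

open Finset Res12 RouteA Helper1.Res Helper54.Res Helper70.Res

set_option linter.unusedSectionVars false

variable {V : Type} [Fintype V] [DecidableEq V]
variable {F P : Finset (Finset V)} {s j : ℕ} {x y : V}

/-- the sum of `tau` over the matching `{ua, vb, tc}` -/
def T3 (F P : Finset (Finset V)) (e f : Finset V) (u v t a b c : V) : ℤ :=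
  tau F P e f u a + tau F P e f v b + tau F P e f t c

theorem T3_rot (e f : Finset V) (u v t a b c : V) :
    T3 F P e f v t u b c a = T3 F P e f u v t a b c := by
  unfold T3; ring

theorem T3_swap (e f : Finset V) (u v t a b c : V) :
    T3 F P e f v u t b a c = T3 F P e f u v t a b c := by
  unfold T3; ring

/-- `ua` carries a label and bounds the matching -/
def Bet (F P : Finset (Finset V)) (x y : V) (s : ℕ) (e f : Finset V) (u v t a b c : V) : Prop :=
  (lb F P x y u a).Nonempty ∧ 5 ≤ dW F P u a ∧ lam F P v b + lam F P t c ≤ -2 ∧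
    T3 F P e f u v t a b c ≤ 2 * lam F P u a + 3 * (lam F P v b + lam F P t c) - 3 * s + 6 -
      (ty F x y e + ty F x y f)

/-- `ua` and `vb` carry labels with different representatives, `tc` is empty and in `J × J` -/
def Gam (F P : Finset (Finset V)) (x y : V) (s j : ℕ) (e f : Finset V) (u v t a b c : V) : Prop :=
  t ∉ N F x y ∧ c ∉ N F x y ∧ (∃ w ∈ lb F P x y u a, ∃ w' ∈ lb F P x y v b, w ≠ w') ∧
    dW F P t c = 0 ∧ 7 ≤ dW F P u a + dW F P v b ∧
    T3 F P e f u v t a b c ≤ 2 * (lam F P u a + lam F P v b) - 3 * s - j -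
      (ty F x y e + ty F x y f)

theorem Gam.swap {e f : Finset V} {u v t a b c : V} (g : Gam F P x y s j e f u v t a b c) :
    Gam F P x y s j e f v u t b a c := by
  obtain ⟨g1, g2, ⟨w, hw, w', hw', hww⟩, g4, g5, g6⟩ := g
  refine ⟨g1, g2, ⟨w', hw', w, hw, hww.symm⟩, g4, by omega, ?_⟩
  rw [T3_swap]
  omega

section
variable (h : SetUp F s j P x y)
include h

theorem dW_le_lb (a b : V) : dW F P a b ≤ (lb F P x y a b).card + 2 := by
  rw [h.dW_eq]
  have h1 : (N F a b ∩ {x, y}).card ≤ 2 := (card_le_card inter_subset_right).trans card_le_two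
  omega

theorem lb_card_le (a b : V) : (lb F P x y a b).card ≤ dW F P a b := by
  rw [h.dW_eq]
  omega

/-- two labelled cells with different representatives and an empty third one -/
theorem T3_two {e f : Finset V} {u v t a b c : V} (p : Pm P e f u v t a b c) {w w' : V}
    (hw : w ∈ lb F P x y u a) (hw' : w' ∈ lb F P x y v b) (hww : w ≠ w') :
    T3 F P e f u v t a b c ≤ 2 * (lam F P u a + lam F P v b) + 3 * lam F P t c - 3 * s + 6 - j -
      (ty F x y e + ty F x y f) := by
  have h1 := tau_le h p.he p.hf p.hef p.hu p.ha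
  have h2 := tau_le h p.he p.hf p.hef p.hv p.hb
  have h3 := tau_zero h p hw hw' hww
  unfold T3
  omega

/-- one labelled cell -/
theorem T3_one {e f : Finset V} {u v t a b c : V} (p : Pm P e f u v t a b c)
    (hl : (lb F P x y u a).Nonempty) :
    T3 F P e f u v t a b c ≤ 2 * lam F P u a + 3 * (lam F P v b + lam F P t c) - 3 * s + 6 -
      (ty F x y e + ty F x y f) := by
  have h1 := tau_le h p.he p.hf p.hef p.hu p.ha
  have h3 := tau_pair h p hl
  unfold T3
  omega

/-- a cell with a label `w` and two cells without labels: `λ + λ' ≤ -2` for these -/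
theorem lam_two_le {e f : Finset V} {u v t a b c : V} (p : Pm P e f u v t a b c)
    (hl : (lb F P x y u a).Nonempty) (h2 : lb F P x y v b = ∅) (h3 : lb F P x y t c = ∅) :
    lam F P v b + lam F P t c ≤ -2 := by
  obtain ⟨w, hw⟩ := hl
  obtain ⟨w1, w2, w3, w4⟩ := mem_lb.1 hw
  have hn := norep h p
  have hs : ∀ {p q z : V}, lb F P x y p q = ∅ → z ∈ N F p q \ VS P → z = x ∨ z = y := by
    intro p q z he hz
    by_contra hcon
    push Not at hcon
    rw [mem_sdiff, mem_N] at hz
    have : z ∈ lb F P x y p q := mem_lb.2 ⟨hz.1, hz.2, hcon.1, hcon.2⟩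
    rw [he] at this
    exact absurd this (notMem_empty _)
  have hB : (N F v b \ VS P).card ≤ 2 := by
    refine (card_le_card (t := {x, y}) ?_).trans card_le_two
    intro z hz
    simpa using hs h2 hz
  have hC : (N F t c \ VS P).card ≤ 2 := by
    refine (card_le_card (t := {x, y}) ?_).trans card_le_two
    intro z hz
    simpa using hs h3 hz
  have key := norep2 (B := N F v b \ VS P) (C := N F t c \ VS P) (by
    intro w2' hw2 w3' hw3
    rcases hn w (mem_sdiff.2 ⟨mem_N.2 w1, w2⟩) w2' hw2 w3' hw3 with h' | h' | h'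
    · exfalso
      rcases hs h2 hw2 with h'' | h''
      · exact w3 (h'.trans h'')
      · exact w4 (h'.trans h'')
    · exfalso
      rcases hs h3 hw3 with h'' | h''
      · exact w3 (h'.trans h'')
      · exact w4 (h'.trans h'')
    · exact h')
  unfold lam dW
  omega

/-- **type I**: exactly one labelled cell -/
theorem T3_one' {e f : Finset V} {u v t a b c : V} (p : Pm P e f u v t a b c)
    (hl : (lb F P x y u a).Nonempty) (h2 : lb F P x y v b = ∅) (h3 : lb F P x y t c = ∅) :
    T3 F P e f u v t a b c ≤ 2 * lam F P u a - 3 * s - (ty F x y e + ty F x y f) := by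
  have h4 := lam_two_le h p hl h2 h3
  have h5 := T3_one h p hl
  omega

/-- an empty cell and two big ones -/
theorem cls_aux {e f : Finset V} {u v t a b c : V} (p : Pm P e f u v t a b c)
    (h0 : dW F P t c = 0) (h7 : 7 ≤ dW F P u a + dW F P v b) (hle : dW F P v b ≤ dW F P u a) :
    Bet F P x y s e f u v t a b c ∨ Gam F P x y s j e f u v t a b c := by
  have h1 := dW_le_lb h u a
  have h2 := dW_le_lb h v b
  have hl : (lb F P x y u a).Nonempty := by
    rw [← card_pos]
    omega
  by_cases hv : lb F P x y v b = ∅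
  · left
    rw [hv, card_empty] at h2
    refine ⟨hl, by omega, ?_, T3_one h p hl⟩
    unfold lam
    omega
  · right
    obtain ⟨w', hw'⟩ := nonempty_iff_ne_empty.2 hv
    obtain ⟨w, hw, hww⟩ := exists_mem_ne1 (A := lb F P x y u a) (by omega) w'
    obtain ⟨k1, k2⟩ := zero_J h p hw hw' hww
    refine ⟨k1, k2, ⟨w, hw, w', hw', hww⟩, h0, h7, ?_⟩
    have k3 := T3_two h p hw hw' hww
    have k4 : lam F P t c = -2 := by
      unfold lam
      omega
    omega

theorem cls_aux' {e f : Finset V} {u v t a b c : V} (p : Pm P e f u v t a b c)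
    (h0 : dW F P t c = 0) (h7 : 7 ≤ dW F P u a + dW F P v b) :
    Bet F P x y s e f u v t a b c ∨ Bet F P x y s e f v u t b a c ∨
      Gam F P x y s j e f u v t a b c := by
  rcases le_total (dW F P v b) (dW F P u a) with hle | hle
  · rcases cls_aux h p h0 h7 hle with h1 | h1
    · exact Or.inl h1
    · exact Or.inr (Or.inr h1)
  · rcases cls_aux h p.swap h0 (by omega) hle with h1 | h1
    · exact Or.inr (Or.inl h1)
    · exact Or.inr (Or.inr h1.swap)

/-- two equal singletons and a big cell -/
theorem cls_one {e f : Finset V} {u v t a b c : V} (p : Pm P e f u v t a b c)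
    (h1 : dW F P v b ≤ 1) (h2 : dW F P t c ≤ 1)
    (h7 : 7 ≤ dW F P u a + dW F P v b + dW F P t c) :
    Bet F P x y s e f u v t a b c := by
  have h3 := dW_le_lb h u a
  have hl : (lb F P x y u a).Nonempty := by
    rw [← card_pos]
    omega
  refine ⟨hl, by omega, ?_, T3_one h p hl⟩
  unfold lam
  omega

/-- **the classification** -/
theorem cls {e f : Finset V} {u v t a b c : V} (p : Pm P e f u v t a b c) :
    (lam F P u a + lam F P v b + lam F P t c ≤ 0 ∧ T3 F P e f u v t a b c ≤
      2 * (lam F P u a + lam F P v b + lam F P t c) - 3 * j) ∨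
    (Bet F P x y s e f u v t a b c ∨ Bet F P x y s e f v t u b c a ∨
      Bet F P x y s e f t u v c a b ∨
      Bet F P x y s e f v u t b a c ∨ Bet F P x y s e f t v u c b a ∨
      Bet F P x y s e f u t v a c b) ∨
    (Gam F P x y s j e f u v t a b c ∨ Gam F P x y s j e f v t u b c a ∨
      Gam F P x y s j e f t u v c a b) := by
  by_cases hS : lam F P u a + lam F P v b + lam F P t c ≤ 0
  · left
    refine ⟨hS, ?_⟩
    have h1 := tau_le h p.he p.hf p.hef p.hu p.ha
    have h2 := tau_le h p.he p.hf p.hef p.hv p.hb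
    have h3 := tau_le h p.he p.hf p.hef p.ht p.hc
    unfold T3
    omega
  · right
    have h7 : 7 ≤ dW F P u a + dW F P v b + dW F P t c := by
      unfold lam at hS
      omega
    have hn := norep h p
    have n1 := norep_fat hn
    have n2 := norep_fat hn.rot
    have n3 := norep_fat hn.rot.rot
    have e1 : (N F u a \ VS P).card = dW F P u a := rfl
    have e2 : (N F v b \ VS P).card = dW F P v b := rfl
    have e3 : (N F t c \ VS P).card = dW F P t c := rfl
    rw [e1, e2, e3] at n1 n2 n3
    by_cases z1 : dW F P t c = 0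
    · rcases cls_aux' h p z1 (by omega) with k | k | k
      · exact Or.inl (Or.inl k)
      · exact Or.inl (Or.inr (Or.inr (Or.inr (Or.inl k))))
      · exact Or.inr (Or.inl k)
    by_cases z2 : dW F P u a = 0
    · rcases cls_aux' h p.rot z2 (by omega) with k | k | k
      · exact Or.inl (Or.inr (Or.inl k))
      · exact Or.inl (Or.inr (Or.inr (Or.inr (Or.inr (Or.inl k)))))
      · exact Or.inr (Or.inr (Or.inl k))
    by_cases z3 : dW F P v b = 0
    · rcases cls_aux' h p.rot.rot z3 (by omega) with k | k | k
      · exact Or.inl (Or.inr (Or.inr (Or.inl k)))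
      · exact Or.inl (Or.inr (Or.inr (Or.inr (Or.inr (Or.inr k)))))
      · exact Or.inr (Or.inr (Or.inr k))
    left
    by_cases f1 : 3 ≤ dW F P u a
    · have := n1 f1
      exact Or.inl (cls_one h p (by omega) (by omega) h7)
    by_cases f2 : 3 ≤ dW F P v b
    · have := n2 f2
      exact Or.inr (Or.inl (cls_one h p.rot (by omega) (by omega) (by omega)))
    by_cases f3 : 3 ≤ dW F P t c
    · have := n3 f3
      exact Or.inr (Or.inr (Or.inl (cls_one h p.rot.rot (by omega) (by omega) (by omega))))
    omega

theorem Bet.bound {e f : Finset V} {u v t a b c : V} (g : Bet F P x y s e f u v t a b c) :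
    T3 F P e f u v t a b c ≤ -(s : ℤ) - (ty F x y e + ty F x y f) := by
  obtain ⟨g1, g2, g3, g4⟩ := g
  have := lam_le h u a
  omega

theorem Gam.bound {e f : Finset V} {u v t a b c : V} (g : Gam F P x y s j e f u v t a b c) :
    T3 F P e f u v t a b c ≤ (s : ℤ) - j - (ty F x y e + ty F x y f) := by
  obtain ⟨g1, g2, g3, g4, g5, g6⟩ := g
  have := lam_le h u a
  have := lam_le h v b
  omega

/-- **the three kinds of perfect matchings** in numbers -/
theorem cls_num {e f : Finset V} {u v t a b c : V} (p : Pm P e f u v t a b c) :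
    T3 F P e f u v t a b c ≤ -3 * (j : ℤ) ∨
    T3 F P e f u v t a b c ≤ -(s : ℤ) - (ty F x y e + ty F x y f) ∨
    (T3 F P e f u v t a b c ≤ (s : ℤ) - j - (ty F x y e + ty F x y f) ∧
      (Gam F P x y s j e f u v t a b c ∨ Gam F P x y s j e f v t u b c a ∨
      Gam F P x y s j e f t u v c a b)) := by
  have hsw : ∀ u v t a b c : V, T3 F P e f t v u c b a = T3 F P e f u v t a b c := by
    intro u v t a b c
    unfold T3; ring
  have hsw2 : ∀ u v t a b c : V, T3 F P e f u t v a c b = T3 F P e f u v t a b c := by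
    intro u v t a b c
    unfold T3; ring
  have hsw3 : ∀ u v t a b c : V, T3 F P e f t u v c a b = T3 F P e f u v t a b c := by
    intro u v t a b c
    unfold T3; ring
  rcases cls h p with ⟨h1, h2⟩ | (k | k | k | k | k | k) | (k | k | k)
  · left
    omega
  · exact Or.inr (Or.inl (k.bound h))
  · have := k.bound h
    rw [T3_rot] at this
    exact Or.inr (Or.inl this)
  · have := k.bound h
    rw [hsw3] at this
    exact Or.inr (Or.inl this)
  · have := k.bound h
    rw [T3_swap] at this
    exact Or.inr (Or.inl this)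
  · have := k.bound h
    rw [hsw] at this
    exact Or.inr (Or.inl this)
  · have := k.bound h
    rw [hsw2] at this
    exact Or.inr (Or.inl this)
  · exact Or.inr (Or.inr ⟨k.bound h, Or.inl k⟩)
  · have := k.bound h
    rw [T3_rot] at this
    exact Or.inr (Or.inr ⟨this, Or.inr (Or.inl k)⟩)
  · have := k.bound h
    rw [hsw3] at this
    exact Or.inr (Or.inr ⟨this, Or.inr (Or.inr k)⟩)

end

end Helper9.Res
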