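import Pool.Agent.Helper28.Res.A0
import Pool.Agent.Helper1.Res.LA4

/-!
# Route A, LA5: a labelled cell and a third block

`e = {u, v, t}`, `f = {a, b, b'}` are blocks and the cell `u a` has a label. Then for a third block
`g` and `c ≠ c'` in `g` whose third point lies in `E` one of the triples `v b c`, `t b' c'` is
missing. This gives lower bounds for the number of missing triples in `(e - u) × f × g`.
-/

namespace Helper9.Res

open Finset Res12 RouteA Helper1.Res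

set_option linter.unusedSectionVars false

variable {V : Type} [Fintype V] [DecidableEq V]

/-- `1` if the triple is missing, `0` if it is an edge -/
def ms (F : Finset (Finset V)) (p q r : V) : ℕ := if ({p, q, r} : Finset V) ∈ F then 0 else 1

variable {F P : Finset (Finset V)} {s j : ℕ} {x y : V}

theorem ms_le (p q r : V) : ms F p q r ≤ 1 := by
  unfold ms
  split_ifs <;> omega

theorem mem_of_ms {p q r : V} (h : ms F p q r = 0) : ({p, q, r} : Finset V) ∈ F := by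
  unfold ms at h
  by_contra hc
  rw [if_neg hc] at h
  omega

theorem triple_comm12 (p q r : V) : ({p, q, r} : Finset V) = {q, p, r} := by
  ext z
  simp only [mem_insert, mem_singleton]
  tauto

theorem ms_comm (p q r : V) : ms F p q r = ms F q p r := by
  unfold ms
  rw [triple_comm12]

theorem lb_comm (a b : V) : lb F P x y a b = lb F P x y b a := by
  unfold lb
  congr 1
  ext z
  rw [mem_N, mem_N, triple_comm12]

theorem m3_comm (e f : Finset V) (a b : V) : m3 F P e f a b = m3 F P f e b a := by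
  unfold m3
  rw [pair_comm e f]
  congr 1
  ext z
  rw [triple_comm12]

theorem toMM (h : SetUp F s j P x y) : MM F s P := ⟨h.hyp, h.sub, h.mat, h.card⟩

/-- the status of points with respect to three blocks -/
theorem lcl_three (hM : MM F s P) {e f g : Finset V} (he : e ∈ P) (hf : f ∈ P) (hg : g ∈ P)
    {k : Finset V} (l : ∀ z ∈ k, z ∈ e ∨ z ∈ f ∨ z ∈ g ∨ z ∉ VS P) : Lcl P {e, f, g} k := by
  apply lcl_of hM.mat
  · intro a ha
    simp only [mem_insert, mem_singleton] at ha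
    rcases ha with rfl | rfl | rfl <;> assumption
  · intro z hz
    rcases l z hz with h | h | h | h
    · exact Or.inl (mem_VS.2 ⟨e, by simp, h⟩)
    · exact Or.inl (mem_VS.2 ⟨f, by simp, h⟩)
    · exact Or.inl (mem_VS.2 ⟨g, by simp, h⟩)
    · exact Or.inr h

/-- three disjoint edges avoiding `x`, `y` inside three blocks and the outside cover `E` -/
theorem three_blocks_cov (hM : MM F s P) (hx : x ∉ VS P) (hy : y ∉ VS P)
    {e f g : Finset V} (he : e ∈ P) (hf : f ∈ P) (hg : g ∈ P) (hef : e ≠ f) (heg : e ≠ g)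
    (hfg : f ≠ g) {k k' k'' : Finset V} (hk : k ∈ F) (hk' : k' ∈ F) (hk'' : k'' ∈ F)
    (hd : Disjoint k k') (hd' : Disjoint k k'') (hd'' : Disjoint k' k'')
    (l : ∀ z ∈ k, z ∈ e ∨ z ∈ f ∨ z ∈ g ∨ (z ∉ VS P ∧ z ≠ x ∧ z ≠ y))
    (l' : ∀ z ∈ k', z ∈ e ∨ z ∈ f ∨ z ∈ g ∨ (z ∉ VS P ∧ z ≠ x ∧ z ≠ y))
    (l'' : ∀ z ∈ k'', z ∈ e ∨ z ∈ f ∨ z ∈ g ∨ (z ∉ VS P ∧ z ≠ x ∧ z ≠ y))
    {z : V} (hz : z ∈ N F x y) (hze : z ∈ e ∨ z ∈ f ∨ z ∈ g) : z ∈ k ∨ z ∈ k' ∨ z ∈ k'' := by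
  have aux : ∀ k : Finset V, (∀ z ∈ k, z ∈ e ∨ z ∈ f ∨ z ∈ g ∨ (z ∉ VS P ∧ z ≠ x ∧ z ≠ y)) →
      Lcl P {e, f, g} k ∧ x ∉ k ∧ y ∉ k := by
    intro k l
    refine ⟨lcl_three hM he hf hg fun z hz => ?_, fun h => ?_, fun h => ?_⟩
    · rcases l z hz with h | h | h | h
      · exact Or.inl h
      · exact Or.inr (Or.inl h)
      · exact Or.inr (Or.inr (Or.inl h))
      · exact Or.inr (Or.inr (Or.inr h.1))
    · rcases l x h with h | h | h | h
      · exact hx (mem_VS.2 ⟨e, he, h⟩)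
      · exact hx (mem_VS.2 ⟨f, hf, h⟩)
      · exact hx (mem_VS.2 ⟨g, hg, h⟩)
      · exact h.2.1 rfl
    · rcases l y h with h | h | h | h
      · exact hy (mem_VS.2 ⟨e, he, h⟩)
      · exact hy (mem_VS.2 ⟨f, hf, h⟩)
      · exact hy (mem_VS.2 ⟨g, hg, h⟩)
      · exact h.2.2 rfl
  obtain ⟨a1, a2, a3⟩ := aux k l
  obtain ⟨b1, b2, b3⟩ := aux k' l'
  obtain ⟨c1, c2, c3⟩ := aux k'' l''
  exact cov3 hM.hyp hM.sub hM.mat hM.card hx hy he hf hg hef heg hfg hk hk' hk'' hd hd' hd''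
    a1 b1 c1 a2 a3 b2 b3 c2 c3 hz hze

theorem mem_lb {a b w : V} : w ∈ lb F P x y a b ↔
    ({a, b, w} : Finset V) ∈ F ∧ w ∉ VS P ∧ w ≠ x ∧ w ≠ y := by
  unfold lb
  rw [mem_sdiff, mem_N, mem_union, mem_insert, mem_singleton]
  tauto

/-- **the conflict**: label `u a w`, triples `v b c` and `t b' c'` leave `c''` outside `E` -/
theorem kill3 (h : SetUp F s j P x y) {u v t a b b' c c' c'' w : V}
    (he : ({u, v, t} : Finset V) ∈ P) (hf : ({a, b, b'} : Finset V) ∈ P)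
    (hg : ({c, c', c''} : Finset V) ∈ P) (hef : ({u, v, t} : Finset V) ≠ {a, b, b'})
    (heg : ({u, v, t} : Finset V) ≠ {c, c', c''}) (hfg : ({a, b, b'} : Finset V) ≠ {c, c', c''})
    (hw : w ∈ lb F P x y u a) (h1 : ({v, b, c} : Finset V) ∈ F)
    (h2 : ({t, b', c'} : Finset V) ∈ F) : c'' ∉ N F x y := by
  intro hz
  have hM := toMM h
  obtain ⟨hw1, hw2, hw3, hw4⟩ := mem_lb.1 hw
  obtain ⟨⟨n1, n2, n3⟩, ⟨n4, n5, n6⟩, ⟨n7, n8, n9⟩, ⟨n10, n11, n12⟩, ⟨n13, n14, n15⟩⟩ :=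
    hM.six he hf hef
  obtain ⟨-, ⟨m4, m5, m6⟩, ⟨m7, m8, m9⟩, ⟨m10, m11, m12⟩, ⟨m13, m14, m15⟩⟩ :=
    hM.six he hg heg
  obtain ⟨-, -, ⟨k7, k8, k9⟩, ⟨k10, k11, k12⟩, ⟨k13, k14, k15⟩⟩ :=
    hM.six hf hg hfg
  obtain ⟨⟨o1, o2, o3⟩, ⟨o4, o5, o6⟩⟩ := six_out he hf hw2
  obtain ⟨-, ⟨q4, q5, q6⟩⟩ := six_out he hg hw2
  have d1 : Disjoint ({u, a, w} : Finset V) {v, b, c} :=
    disj3 ⟨n1, n8, m7, n10.symm, n4, k7, o2.symm, o5.symm, q4.symm⟩
  have d2 : Disjoint ({u, a, w} : Finset V) {t, b', c'} :=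
    disj3 ⟨n2, n9, m8, n13.symm, n5, k8, o3.symm, o6.symm, q5.symm⟩
  have d3 : Disjoint ({v, b, c} : Finset V) {t, b', c'} :=
    disj3 ⟨n3, n12, m11, n14.symm, n6, k11, m13.symm, k13.symm, m4⟩
  have := three_blocks_cov hM h.avx h.avy he hf hg hef heg hfg hw1 h1 h2 d1 d2 d3 (by
      intro z hz
      simp only [mem_insert, mem_singleton] at hz ⊢
      rcases hz with rfl | rfl | rfl
      · exact Or.inl (Or.inl rfl)
      · exact Or.inr (Or.inl (Or.inl rfl))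
      · exact Or.inr (Or.inr (Or.inr ⟨hw2, hw3, hw4⟩))) (by
      intro z hz
      simp only [mem_insert, mem_singleton] at hz ⊢
      rcases hz with rfl | rfl | rfl
      · exact Or.inl (Or.inr (Or.inl rfl))
      · exact Or.inr (Or.inl (Or.inr (Or.inl rfl)))
      · exact Or.inr (Or.inr (Or.inl (Or.inl rfl)))) (by
      intro z hz
      simp only [mem_insert, mem_singleton] at hz ⊢
      rcases hz with rfl | rfl | rfl
      · exact Or.inl (Or.inr (Or.inr rfl))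
      · exact Or.inr (Or.inl (Or.inr (Or.inr rfl)))
      · exact Or.inr (Or.inr (Or.inl (Or.inr (Or.inl rfl))))) hz (Or.inr (Or.inr (by simp)))
  simp only [mem_insert, mem_singleton] at this
  rcases this with (h' | h' | h') | (h' | h' | h') | (h' | h' | h')
  · exact m9 h'.symm
  · exact k9 h'.symm
  · exact q6 h'
  · exact m12 h'.symm
  · exact k12 h'.symm
  · exact m5 h'.symm
  · exact m15 h'.symm
  · exact k15 h'.symm
  · exact m6 h'.symm

/-- the numerical form of `kill3` -/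
theorem kill3' (h : SetUp F s j P x y) {u v t a b b' c c' c'' : V}
    (he : ({u, v, t} : Finset V) ∈ P) (hf : ({a, b, b'} : Finset V) ∈ P)
    (hg : ({c, c', c''} : Finset V) ∈ P) (hef : ({u, v, t} : Finset V) ≠ {a, b, b'})
    (heg : ({u, v, t} : Finset V) ≠ {c, c', c''}) (hfg : ({a, b, b'} : Finset V) ≠ {c, c', c''})
    (hw : (lb F P x y u a).Nonempty) (hE : c'' ∈ N F x y) :
    1 ≤ ms F v b c + ms F t b' c' := by
  obtain ⟨w, hw⟩ := hw
  by_contra hc
  push Not at hc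
  have h1 : ms F v b c = 0 := by omega
  have h2 : ms F t b' c' = 0 := by omega
  exact kill3 h he hf hg hef heg hfg hw (mem_of_ms h1) (mem_of_ms h2) hE

/-- `0` for points of `E`, `1` for the other points -/
def ep (F : Finset (Finset V)) (x y c : V) : ℕ := if c ∈ N F x y then 0 else 1

theorem ep_le (c : V) : ep F x y c ≤ 1 := by
  unfold ep
  split_ifs <;> omega

theorem kill3e (h : SetUp F s j P x y) {u v t a b b' c c' c'' : V}
    (he : ({u, v, t} : Finset V) ∈ P) (hf : ({a, b, b'} : Finset V) ∈ P)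
    (hg : ({c, c', c''} : Finset V) ∈ P) (hef : ({u, v, t} : Finset V) ≠ {a, b, b'})
    (heg : ({u, v, t} : Finset V) ≠ {c, c', c''}) (hfg : ({a, b, b'} : Finset V) ≠ {c, c', c''})
    (hw : (lb F P x y u a).Nonempty) :
    1 ≤ ms F v b c + ms F t b' c' + ep F x y c'' := by
  unfold ep
  split_ifs with hE
  · have := kill3' h he hf hg hef heg hfg hw hE
    omega
  · omega

theorem sum3 {a b c : V} (h1 : a ≠ b) (h2 : a ≠ c) (h3 : b ≠ c) (f : V → ℕ) :
    ∑ z ∈ ({a, b, c} : Finset V), f z = f a + f b + f c := by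
  rw [sum_insert (by simp [h1, h2]), sum_insert (by simp [h3]), sum_singleton]
  omega

theorem ty_eq (e : Finset V) : ty F x y e = ∑ z ∈ e, ep F x y z := by
  unfold ty ep
  rw [Finset.sum_ite, sum_const_zero, zero_add, sum_const, smul_eq_mul, mul_one, filter_notMem_eq_sdiff]

/-- a block with a marked point -/
theorem block_at (h : SetUp F s j P x y) {e : Finset V} (he : e ∈ P) {u : V} (hu : u ∈ e) :
    ∃ v t : V, e = {u, v, t} ∧ u ≠ v ∧ u ≠ t ∧ v ≠ t ∧ e.erase u = {v, t} := by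
  have h3 := h.threeP e he
  have h2 : (e.erase u).card = 2 := by rw [card_erase_of_mem hu, h3]
  obtain ⟨v, t, hvt, hE⟩ := card_eq_two.1 h2
  have hv : v ∈ e.erase u := by rw [hE]; simp
  have ht : t ∈ e.erase u := by rw [hE]; simp
  refine ⟨v, t, ?_, (ne_of_mem_erase hv).symm, (ne_of_mem_erase ht).symm, hvt, hE⟩
  rw [← insert_erase hu, hE]

theorem block_at2 (h : SetUp F s j P x y) {e : Finset V} (he : e ∈ P) {u v : V} (hu : u ∈ e)
    (hv : v ∈ e) (huv : u ≠ v) : ∃ t : V, e = {u, v, t} ∧ u ≠ t ∧ v ≠ t := by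
  obtain ⟨v', t', h1, h2, h3, h4, h5⟩ := block_at h he hu
  have hv' : v ∈ e.erase u := mem_erase.2 ⟨huv.symm, hv⟩
  rw [h5, mem_insert, mem_singleton] at hv'
  rcases hv' with rfl | rfl
  · exact ⟨t', h1, h3, h4⟩
  · refine ⟨v', ?_, h2, h4.symm⟩
    rw [h1, pair_comm]

theorem rot (c c' c'' : V) : ({c, c', c''} : Finset V) = {c', c'', c} := by
  ext z
  simp only [mem_insert, mem_singleton]
  tauto

theorem swap23 (c c' c'' : V) : ({c, c', c''} : Finset V) = {c, c'', c'} := by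
  rw [pair_comm]

section Counts

variable (h : SetUp F s j P x y) {u v t a b b' : V}
  (he : ({u, v, t} : Finset V) ∈ P) (hf : ({a, b, b'} : Finset V) ∈ P)
  (hef : ({u, v, t} : Finset V) ≠ {a, b, b'})
include h he hf hef

/-- all six conflicts with one labelled cell and one ordered pair of columns -/
theorem six_conf {c1 c2 c3 : V} (hg : ({c1, c2, c3} : Finset V) ∈ P)
    (heg : ({u, v, t} : Finset V) ≠ {c1, c2, c3}) (hfg : ({a, b, b'} : Finset V) ≠ {c1, c2, c3})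
    (hw : (lb F P x y u a).Nonempty) :
    1 ≤ ms F v b c1 + ms F t b' c2 + ep F x y c3 ∧
    1 ≤ ms F v b c2 + ms F t b' c1 + ep F x y c3 ∧
    1 ≤ ms F v b c2 + ms F t b' c3 + ep F x y c1 ∧
    1 ≤ ms F v b c3 + ms F t b' c2 + ep F x y c1 ∧
    1 ≤ ms F v b c3 + ms F t b' c1 + ep F x y c2 ∧
    1 ≤ ms F v b c1 + ms F t b' c3 + ep F x y c2 := by
  have r1 : ({c1, c2, c3} : Finset V) = {c2, c3, c1} := rot _ _ _
  have r2 : ({c1, c2, c3} : Finset V) = {c3, c1, c2} := by rw [rot, rot]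
  have r3 : ({c1, c2, c3} : Finset V) = {c2, c1, c3} := triple_comm12 _ _ _
  have r4 : ({c1, c2, c3} : Finset V) = {c3, c2, c1} := by rw [r1, triple_comm12]
  have r5 : ({c1, c2, c3} : Finset V) = {c1, c3, c2} := swap23 _ _ _
  refine ⟨kill3e h he hf hg hef heg hfg hw, ?_, ?_, ?_, ?_, ?_⟩
  · rw [r3] at hg heg hfg
    exact kill3e h he hf hg hef heg hfg hw
  · rw [r1] at hg heg hfg
    exact kill3e h he hf hg hef heg hfg hw
  · rw [r4] at hg heg hfg
    exact kill3e h he hf hg hef heg hfg hw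
  · rw [r2] at hg heg hfg
    exact kill3e h he hf hg hef heg hfg hw
  · rw [r5] at hg heg hfg
    exact kill3e h he hf hg hef heg hfg hw

/-- one labelled cell, one ordered pair of columns -/
theorem pair_row {g : Finset V} (hg : g ∈ P) (heg : ({u, v, t} : Finset V) ≠ g)
    (hfg : ({a, b, b'} : Finset V) ≠ g) (hw : (lb F P x y u a).Nonempty) :
    3 ≤ ∑ c ∈ g, ms F v b c + ∑ c ∈ g, ms F t b' c + ty F x y g ∧
    (ty F x y g ≤ 2 → 2 ≤ ∑ c ∈ g, ms F v b c + ∑ c ∈ g, ms F t b' c) := by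
  obtain ⟨c1, c2, c3, h12, h13, h23, rfl⟩ := card_eq_three.1 (h.threeP g hg)
  obtain ⟨k1, k2, k3, k4, k5, k6⟩ := six_conf h he hf hef hg heg hfg hw
  rw [ty_eq, sum3 h12 h13 h23, sum3 h12 h13 h23, sum3 h12 h13 h23]
  have e1 := ep_le (F := F) (x := x) (y := y) c1
  have e2 := ep_le (F := F) (x := x) (y := y) c2
  have e3 := ep_le (F := F) (x := x) (y := y) c3
  constructor <;> omega

end Counts

section Counts2

variable (h : SetUp F s j P x y)
include h

/-- **one labelled cell** `u a`: the four cells disjoint from it and a third block -/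
theorem star1 {e f g : Finset V} (he : e ∈ P) (hf : f ∈ P) (hg : g ∈ P) (hef : e ≠ f)
    (heg : e ≠ g) (hfg : f ≠ g) {u a : V} (hu : u ∈ e) (ha : a ∈ f)
    (hl : (lb F P x y u a).Nonempty) :
    6 ≤ ∑ v ∈ e.erase u, ∑ b ∈ f.erase a, ∑ c ∈ g, ms F v b c + 2 * ty F x y g ∧
    (ty F x y g ≤ 2 → 4 ≤ ∑ v ∈ e.erase u, ∑ b ∈ f.erase a, ∑ c ∈ g, ms F v b c) := by
  obtain ⟨v, t, rfl, huv, hut, hvt, he2⟩ := block_at h he hu
  obtain ⟨b, b', rfl, hab, hab', hbb, hf2⟩ := block_at h hf ha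
  rw [he2, hf2, sum_pair hvt, sum_pair hbb, sum_pair hbb]
  obtain ⟨p1, p2⟩ := pair_row h he hf hef hg heg hfg hl
  have hf' : ({a, b, b'} : Finset V) = {a, b', b} := swap23 _ _ _
  rw [hf'] at hf hef hfg
  obtain ⟨q1, q2⟩ := pair_row h he hf hef hg heg hfg hl
  constructor
  · omega
  · intro h2
    have := p2 h2
    have := q2 h2
    omega

/-- **three labelled cells** in the row of `u` -/
theorem star3 {e f g : Finset V} (he : e ∈ P) (hf : f ∈ P) (hg : g ∈ P) (hef : e ≠ f)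
    (heg : e ≠ g) (hfg : f ≠ g) {u : V} (hu : u ∈ e)
    (hl : ∀ a ∈ f, (lb F P x y u a).Nonempty) :
    9 ≤ ∑ v ∈ e.erase u, ∑ b ∈ f, ∑ c ∈ g, ms F v b c + 3 * ty F x y g ∧
    (ty F x y g ≤ 2 → 6 ≤ ∑ v ∈ e.erase u, ∑ b ∈ f, ∑ c ∈ g, ms F v b c) := by
  obtain ⟨v, t, rfl, huv, hut, hvt, he2⟩ := block_at h he hu
  obtain ⟨a, b, b', h12, h13, h23, rfl⟩ := card_eq_three.1 (h.threeP f hf)
  rw [he2, sum_pair hvt, sum3 h12 h13 h23, sum3 h12 h13 h23]
  obtain ⟨p1, p2⟩ := pair_row h he hf hef hg heg hfg (hl a (by simp))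
  have r1 : ({a, b, b'} : Finset V) = {b, b', a} := rot _ _ _
  have hf1 := hf
  have hef1 := hef
  have hfg1 := hfg
  rw [r1] at hf1 hef1 hfg1
  obtain ⟨q1, q2⟩ := pair_row h he hf1 hef1 hg heg hfg1 (hl b (by simp))
  have r2 : ({a, b, b'} : Finset V) = {b', a, b} := by rw [rot, rot]
  rw [r2] at hf hef hfg
  obtain ⟨s1, s2⟩ := pair_row h he hf hef hg heg hfg (hl b' (by simp))
  constructor
  · omega
  · intro h2
    have := p2 h2
    have := q2 h2
    have := s2 h2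
    omega

/-- two labelled cells `u a`, `u b` and a third block with two points `c1`, `c2` of `E` -/
theorem star2_aux {u v t a b b' c1 c2 c3 : V}
    (he : ({u, v, t} : Finset V) ∈ P) (hf : ({a, b, b'} : Finset V) ∈ P)
    (hef : ({u, v, t} : Finset V) ≠ {a, b, b'}) (hg : ({c1, c2, c3} : Finset V) ∈ P)
    (heg : ({u, v, t} : Finset V) ≠ {c1, c2, c3}) (hfg : ({a, b, b'} : Finset V) ≠ {c1, c2, c3})
    (hwa : (lb F P x y u a).Nonempty) (hwb : (lb F P x y u b).Nonempty)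
    (e1 : ep F x y c1 = 0) (e2 : ep F x y c2 = 0) :
    6 ≤ (ms F v a c1 + ms F v a c2 + ms F v a c3) + (ms F v b c1 + ms F v b c2 + ms F v b c3) +
      (ms F v b' c1 + ms F v b' c2 + ms F v b' c3) +
      ((ms F t a c1 + ms F t a c2 + ms F t a c3) + (ms F t b c1 + ms F t b c2 + ms F t b c3) +
      (ms F t b' c1 + ms F t b' c2 + ms F t b' c3)) := by
  obtain ⟨k1, k2, k3, k4, k5, k6⟩ := six_conf h he hf hef hg heg hfg hwa
  have r1 : ({a, b, b'} : Finset V) = {a, b', b} := swap23 _ _ _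
  have hf1 := hf
  have hef1 := hef
  have hfg1 := hfg
  rw [r1] at hf1 hef1 hfg1
  obtain ⟨l1, l2, l3, l4, l5, l6⟩ := six_conf h he hf1 hef1 hg heg hfg1 hwa
  have r2 : ({a, b, b'} : Finset V) = {b, a, b'} := triple_comm12 _ _ _
  have hf2 := hf
  have hef2 := hef
  have hfg2 := hfg
  rw [r2] at hf2 hef2 hfg2
  obtain ⟨m1, m2, m3, m4, m5, m6⟩ := six_conf h he hf2 hef2 hg heg hfg2 hwb
  have r3 : ({b, a, b'} : Finset V) = {b, b', a} := swap23 _ _ _
  rw [r3] at hf2 hef2 hfg2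
  obtain ⟨n1, n2, n3, n4, n5, n6⟩ := six_conf h he hf2 hef2 hg heg hfg2 hwb
  clear k1 k2 l1 l2 m1 m2 n1 n2
  omega

/-- **two labelled cells** in the row of `u` -/
theorem star2 {e f g : Finset V} (he : e ∈ P) (hf : f ∈ P) (hg : g ∈ P) (hef : e ≠ f)
    (heg : e ≠ g) (hfg : f ≠ g) {u a b : V} (hu : u ∈ e) (ha : a ∈ f) (hb : b ∈ f)
    (hab : a ≠ b) (hwa : (lb F P x y u a).Nonempty) (hwb : (lb F P x y u b).Nonempty) :
    (ty F x y g ≤ 1 → 6 ≤ ∑ v ∈ e.erase u, ∑ b ∈ f, ∑ c ∈ g, ms F v b c) ∧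
    (ty F x y g ≤ 2 → 4 ≤ ∑ v ∈ e.erase u, ∑ b ∈ f, ∑ c ∈ g, ms F v b c) := by
  have hle : ∑ v ∈ e.erase u, ∑ b ∈ f.erase a, ∑ c ∈ g, ms F v b c ≤
      ∑ v ∈ e.erase u, ∑ b ∈ f, ∑ c ∈ g, ms F v b c := by
    refine sum_le_sum fun v _ => ?_
    exact sum_le_sum_of_subset (erase_subset _ _)
  obtain ⟨s1, s2⟩ := star1 h he hf hg hef heg hfg hu ha hwa
  refine ⟨fun h1 => ?_, fun h2 => (s2 h2).trans hle⟩
  obtain ⟨v, t, rfl, huv, hut, hvt, he2⟩ := block_at h he hu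
  obtain ⟨b', rfl, hab', hbb'⟩ := block_at2 h hf ha hb hab
  obtain ⟨c1, c2, c3, h12, h13, h23, rfl⟩ := card_eq_three.1 (h.threeP g hg)
  rw [ty_eq, sum3 h12 h13 h23] at h1
  clear hle s1 s2
  rw [he2, sum_pair hvt, sum3 hab hab' hbb', sum3 hab hab' hbb', sum3 h12 h13 h23,
    sum3 h12 h13 h23, sum3 h12 h13 h23, sum3 h12 h13 h23, sum3 h12 h13 h23, sum3 h12 h13 h23]
  have e1 := ep_le (F := F) (x := x) (y := y) c1
  have e2 := ep_le (F := F) (x := x) (y := y) c2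
  have e3 := ep_le (F := F) (x := x) (y := y) c3
  rcases (by omega : (ep F x y c1 = 0 ∧ ep F x y c2 = 0) ∨ (ep F x y c2 = 0 ∧ ep F x y c3 = 0) ∨
    (ep F x y c3 = 0 ∧ ep F x y c1 = 0)) with ⟨i1, i2⟩ | ⟨i1, i2⟩ | ⟨i1, i2⟩
  · have := star2_aux h he hf hef hg heg hfg hwa hwb i1 i2
    omega
  · rw [rot c1 c2 c3] at hg heg hfg
    have := star2_aux h he hf hef hg heg hfg hwa hwb i1 i2
    omega
  · rw [rot c1 c2 c3, rot c2 c3 c1] at hg heg hfg
    have := star2_aux h he hf hef hg heg hfg hwa hwb i1 i2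
    omega

/-- the number of missing triples through a cell, split over the third blocks -/
theorem card_m3 (e f : Finset V) (a b : V) :
    (m3 F P e f a b).card = ∑ g ∈ P \ {e, f}, ∑ c ∈ g, ms F a b c := by
  unfold m3
  rw [card_filter]
  unfold VS
  rw [sum_biUnion]
  · refine sum_congr rfl fun g _ => sum_congr rfl fun c _ => ?_
    unfold ms
    split_ifs <;> rfl
  · intro g hg g' hg' hgg
    have h1 := mem_coe.1 hg
    have h2 := mem_coe.1 hg'
    exact h.mat g (mem_sdiff.1 h1).1 g' (mem_sdiff.1 h2).1 hgg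

/-- the types of the third blocks -/
theorem sum_ty_third {e f : Finset V} (he : e ∈ P) (hf : f ∈ P) (hef : e ≠ f) :
    ∑ g ∈ P \ {e, f}, ty F x y g + (ty F x y e + ty F x y f) = j := by
  rw [← h.sum_ty, ← sum_sdiff (show ({e, f} : Finset (Finset V)) ⊆ P by
    intro z hz
    simp only [mem_insert, mem_singleton] at hz
    rcases hz with rfl | rfl <;> assumption), sum_pair hef]

theorem card_third {e f : Finset V} (he : e ∈ P) (hf : f ∈ P) (hef : e ≠ f) :
    (P \ {e, f}).card + 2 = s := by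
  have h1 : ({e, f} : Finset (Finset V)) ⊆ P := by
    intro z hz
    simp only [mem_insert, mem_singleton] at hz
    rcases hz with rfl | rfl <;> assumption
  have h2 := card_le_card h1
  rw [card_sdiff_of_subset h1, card_pair hef, h.card] at *
  omega

theorem third_ne {e f g : Finset V} (hg : g ∈ P \ {e, f}) : g ∈ P ∧ e ≠ g ∧ f ≠ g := by
  rw [mem_sdiff, mem_insert, mem_singleton, not_or] at hg
  exact ⟨hg.1, fun h' => hg.2.1 h'.symm, fun h' => hg.2.2 h'.symm⟩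

omit h in
theorem push3 (A B : Finset V) (G : Finset (Finset V)) (φ : V → V → Finset V → ℕ) :
    ∑ v ∈ A, ∑ b ∈ B, ∑ g ∈ G, φ v b g = ∑ g ∈ G, ∑ v ∈ A, ∑ b ∈ B, φ v b g := by
  have h1 : ∀ v, ∑ b ∈ B, ∑ g ∈ G, φ v b g = ∑ g ∈ G, ∑ b ∈ B, φ v b g := fun v => sum_comm
  simp_rw [h1]
  exact sum_comm

/-- the sum of `m3` over a rectangle of cells, split over the third blocks -/
theorem sum_m3_rect (e f A B : Finset V) :
    ∑ v ∈ A, ∑ b ∈ B, (m3 F P e f v b).card =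
      ∑ g ∈ P \ {e, f}, ∑ v ∈ A, ∑ b ∈ B, ∑ c ∈ g, ms F v b c := by
  simp_rw [card_m3 h]
  exact push3 _ _ _ _

/-- one labelled cell: the four cells disjoint from it -/
theorem m3_star1 {e f : Finset V} (he : e ∈ P) (hf : f ∈ P) (hef : e ≠ f) {u a : V}
    (hu : u ∈ e) (ha : a ∈ f) (hl : (lb F P x y u a).Nonempty) :
    6 * s + 2 * (ty F x y e + ty F x y f) ≤
      ∑ v ∈ e.erase u, ∑ b ∈ f.erase a, (m3 F P e f v b).card + 2 * j + 12 := by
  have hc := card_third h he hf hef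
  have ht := sum_ty_third h he hf hef
  have h1 := sum_m3_rect h e f (e.erase u) (f.erase a)
  have h2 : ∑ g ∈ P \ {e, f}, 6 ≤ ∑ g ∈ P \ {e, f},
      (∑ v ∈ e.erase u, ∑ b ∈ f.erase a, ∑ c ∈ g, ms F v b c + 2 * ty F x y g) := by
    refine sum_le_sum fun g hg => ?_
    obtain ⟨g1, g2, g3⟩ := third_ne h hg
    exact (star1 h he hf g1 hef g2 g3 hu ha hl).1
  rw [sum_const, smul_eq_mul, sum_add_distrib, ← mul_sum, ← h1] at h2
  omega

/-- two labelled cells in the row of `u` -/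
theorem m3_star2 {e f : Finset V} (he : e ∈ P) (hf : f ∈ P) (hef : e ≠ f) {u a b : V}
    (hu : u ∈ e) (ha : a ∈ f) (hb : b ∈ f) (hab : a ≠ b)
    (hwa : (lb F P x y u a).Nonempty) (hwb : (lb F P x y u b).Nonempty) :
    6 * s + 2 * (ty F x y e + ty F x y f) ≤
      ∑ v ∈ e.erase u, ∑ b ∈ f, (m3 F P e f v b).card + 2 * j + 12 := by
  have hc := card_third h he hf hef
  have ht := sum_ty_third h he hf hef
  have h1 := sum_m3_rect h e f (e.erase u) f
  have h2 : ∑ g ∈ P \ {e, f}, 6 ≤ ∑ g ∈ P \ {e, f},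
      (∑ v ∈ e.erase u, ∑ b ∈ f, ∑ c ∈ g, ms F v b c + 2 * ty F x y g) := by
    refine sum_le_sum fun g hg => ?_
    obtain ⟨g1, g2, g3⟩ := third_ne h hg
    obtain ⟨q1, q2⟩ := star2 h he hf g1 hef g2 g3 hu ha hb hab hwa hwb
    have q3 := h.ty_le g1
    omega
  rw [sum_const, smul_eq_mul, sum_add_distrib, ← mul_sum, ← h1] at h2
  omega

/-- three labelled cells in the row of `u` -/
theorem m3_star3 {e f : Finset V} (he : e ∈ P) (hf : f ∈ P) (hef : e ≠ f) {u : V}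
    (hu : u ∈ e) (hl : ∀ a ∈ f, (lb F P x y u a).Nonempty) :
    9 * s + 3 * (ty F x y e + ty F x y f) ≤
      ∑ v ∈ e.erase u, ∑ b ∈ f, (m3 F P e f v b).card + 3 * j + 18 := by
  have hc := card_third h he hf hef
  have ht := sum_ty_third h he hf hef
  have h1 := sum_m3_rect h e f (e.erase u) f
  have h2 : ∑ g ∈ P \ {e, f}, 9 ≤ ∑ g ∈ P \ {e, f},
      (∑ v ∈ e.erase u, ∑ b ∈ f, ∑ c ∈ g, ms F v b c + 3 * ty F x y g) := by
    refine sum_le_sum fun g hg => ?_
    obtain ⟨g1, g2, g3⟩ := third_ne h hg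
    exact (star3 h he hf g1 hef g2 g3 hu hl).1
  rw [sum_const, smul_eq_mul, sum_add_distrib, ← mul_sum, ← h1] at h2
  omega

/-- the column form of a sum of `m3` -/
theorem m3_swap (e f A B : Finset V) :
    ∑ b ∈ B, ∑ v ∈ A, (m3 F P f e b v).card = ∑ v ∈ A, ∑ b ∈ B, (m3 F P e f v b).card := by
  rw [sum_comm]
  exact sum_congr rfl fun v _ => sum_congr rfl fun b _ => by rw [m3_comm]

end Counts2

end Helper9.Res
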