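import Mathlib

/-!
# Patterns of heavy cells in a 3 x 3 array

`h i k` says that the cell `(i, k)` is heavy, `je i`, `jf k` are the flags of the rows and columns.
Rules: no perfect matching consists of heavy cells, and if two cells of a perfect matching are
heavy then the third one has both flags (then it is called a zero cell).  The kind of a perfect
matching is `2` if it has two heavy cells, else `3` if it has two zero cells, else `1` if it has a
heavy cell or a zero cell, else `0`.
-/

namespace Helper9.Res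

/-- the cell `(a, b)` of a matching and the other two -/
def zc (a b c z : Bool) : Bool := a && b && !c && z

/-- is `z00 = (0,0)` a zero cell: the two matchings through it are `00,11,22` and `00,12,21` -/
def zero1 (h00 h11 h22 h12 h21 : Bool) : Bool := !h00 && ((h11 && h22) || (h12 && h21))

/-- number of true values -/
def cb (a b c : Bool) : ℕ := a.toNat + b.toNat + c.toNat

/-- the kind of a perfect matching with heavy flags `a b c` and zero flags `x y z` -/
def kd (a b c x y z : Bool) : ℕ :=
  if 2 ≤ cb a b c then 2 else if 2 ≤ cb x y z then 3 else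
    if 1 ≤ cb a b c ∨ 1 ≤ cb x y z then 1 else 0

/-- the rule for one perfect matching: flags `p q r` of the three cells (both points in `J`) -/
def rl (a b c p q r : Bool) : Bool :=
  !(a && b && c) && (!(a && b) || r) && (!(a && c) || q) && (!(b && c) || p)

/-- the numbers of kinds -/
def nk (k : ℕ) (l : List ℕ) : ℕ := l.count k

/-- the list of the six kinds -/
def kinds (h00 h01 h02 h10 h11 h12 h20 h21 h22 : Bool) : List ℕ :=
  let z00 := zero1 h00 h11 h22 h12 h21
  let z01 := zero1 h01 h10 h22 h12 h20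
  let z02 := zero1 h02 h10 h21 h11 h20
  let z10 := zero1 h10 h01 h22 h02 h21
  let z11 := zero1 h11 h00 h22 h02 h20
  let z12 := zero1 h12 h00 h21 h01 h20
  let z20 := zero1 h20 h01 h12 h02 h11
  let z21 := zero1 h21 h00 h12 h02 h10
  let z22 := zero1 h22 h00 h11 h01 h10
  [kd h00 h11 h22 z00 z11 z22, kd h01 h12 h20 z01 z12 z20, kd h02 h10 h21 z02 z10 z21,
   kd h00 h12 h21 z00 z12 z21, kd h02 h11 h20 z02 z11 z20, kd h01 h10 h22 z01 z10 z22]

/-- the rule for the whole array -/
def rule (h00 h01 h02 h10 h11 h12 h20 h21 h22 e0 e1 e2 f0 f1 f2 : Bool) : Bool :=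
  rl h00 h11 h22 (e0 && f0) (e1 && f1) (e2 && f2) &&
  rl h01 h12 h20 (e0 && f1) (e1 && f2) (e2 && f0) &&
  rl h02 h10 h21 (e0 && f2) (e1 && f0) (e2 && f1) &&
  rl h00 h12 h21 (e0 && f0) (e1 && f2) (e2 && f1) &&
  rl h02 h11 h20 (e0 && f2) (e1 && f1) (e2 && f0) &&
  rl h01 h10 h22 (e0 && f1) (e1 && f0) (e2 && f2)

/-- the possible vectors (numbers of kinds 0, 1, 2, 3), by the numbers of flags -/
def good (l : List ℕ) (i k : ℕ) : Bool :=
  let v := (l.count 0, l.count 1, l.count 2, l.count 3)
  v == (6, 0, 0, 0) || v == (4, 2, 0, 0) || v == (2, 4, 0, 0) || v == (0, 6, 0, 0) ||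
  (1 ≤ i && 1 ≤ k && (v == (2, 3, 1, 0) || v == (1, 4, 1, 0) || v == (0, 4, 2, 0))) ||
  (2 ≤ i && 2 ≤ k && v == (0, 0, 4, 2)) ||
  (((3 ≤ i && 1 ≤ k) || (1 ≤ i && 3 ≤ k)) &&
    (v == (0, 0, 6, 0) || v == (0, 2, 4, 0) || v == (0, 3, 3, 0)))

def statement : Prop := ∀ h00 h01 h02 h10 h11 h12 h20 h21 h22 e0 e1 e2 f0 f1 f2 : Bool,
  rule h00 h01 h02 h10 h11 h12 h20 h21 h22 e0 e1 e2 f0 f1 f2 = true →
    good (kinds h00 h01 h02 h10 h11 h12 h20 h21 h22) (cb e0 e1 e2) (cb f0 f1 f2) = true

instance : Decidable statement := by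
  unfold statement
  infer_instance

theorem pattern : statement := by
  decide +kernel

end Helper9.Res
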