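import Pool.Agent.Helper9.Res.Cls
import Pool.Agent.Helper9.Res.Pat
import Pool.Agent.Helper54.Res.UKill
import Pool.Agent.Helper65.Res.Frame

/-!
# Route A: the bound for a pair of blocks

A cell is heavy if it has at least four outside neighbours.  A cell is zero if it is the third cell
of a perfect matching with two heavy cells; then it has no outside neighbour and it is in many
missing triples.
-/

namespace Helper9.Res

open Finset Res12 RouteA Helper1.Res Helper54.Res Helper70.Res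

set_option linter.unusedSectionVars false

variable {V : Type} [Fintype V] [DecidableEq V]
variable {F P : Finset (Finset V)} {s j : ℕ} {x y : V}

/-- heavy cells -/
def hv (F P : Finset (Finset V)) (a b : V) : Bool := decide (4 ≤ dW F P a b)

/-- points outside `E` -/
def jf (F : Finset (Finset V)) (x y a : V) : Bool := decide (a ∉ N F x y)

/-- a zero cell -/
def Zr (F P : Finset (Finset V)) (s j : ℕ) (e f : Finset V) (a b : V) : Prop :=
  dW F P a b = 0 ∧ 3 * s ≤ mm F P e f a b + j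

theorem hv_iff {a b : V} : hv F P a b = true ↔ 4 ≤ dW F P a b := by
  unfold hv; rw [decide_eq_true_iff]

theorem tau_mm (e f : Finset V) (a b : V) :
    tau F P e f a b = 3 * lam F P a b - (mm F P e f a b : ℤ) := by
  unfold tau mm
  push_cast
  ring

/-- the bounds of the four kinds of matchings -/
def KB (s j : ℕ) (k : ℕ) : ℤ :=
  if k = 0 then -3 * (j : ℤ) else
  if k = 1 then min (-(s : ℤ) - 4) (2 * s - 2 - 3 * j) else
  if k = 2 then min ((s : ℤ) - j - 6) (4 * s - 4 - 3 * j) else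
  min ((j : ℤ) - 4 * s - 12) (2 * s - 8 - 3 * j)

section
variable (h : SetUp F s j P x y)
include h

/-- **(A)** without conditions -/
theorem T3_le {e f : Finset V} {u v t a b c : V} (p : Pm P e f u v t a b c) :
    T3 F P e f u v t a b c ≤ 2 * (lam F P u a + lam F P v b + lam F P t c) - 3 * j := by
  have h1 := tau_le h p.he p.hf p.hef p.hu p.ha
  have h2 := tau_le h p.he p.hf p.hef p.hv p.hb
  have h3 := tau_le h p.he p.hf p.hef p.ht p.hc
  unfold T3
  omega

/-- **(B)** with the inner kills -/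
theorem T3_one4 {e f : Finset V} {u v t a b c : V} (p : Pm P e f u v t a b c)
    (hl : (lb F P x y u a).Nonempty) :
    T3 F P e f u v t a b c ≤ 2 * lam F P u a + 3 * (lam F P v b + lam F P t c) - 3 * s + 2 -
      (ep F x y u + ep F x y a) := by
  have h1 := tau_le h p.he p.hf p.hef p.hu p.ha
  have h3 := pair_mm h p hl
  unfold T3
  rw [tau_mm e f v b, tau_mm e f t c]
  omega

/-- **(C)** with the inner kills -/
theorem T3_two4 {e f : Finset V} {u v t a b c : V} (p : Pm P e f u v t a b c) {w w' : V}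
    (hw : w ∈ lb F P x y u a) (hw' : w' ∈ lb F P x y v b) (hww : w ≠ w') :
    T3 F P e f u v t a b c ≤ 2 * (lam F P u a + lam F P v b) + 3 * lam F P t c - 3 * s - j := by
  have h1 := tau_le h p.he p.hf p.hef p.hu p.ha
  have h2 := tau_le h p.he p.hf p.hef p.hv p.hb
  have h3 := zero_mm h p hw hw' hww
  unfold T3
  rw [tau_mm e f t c]
  omega

/-- two heavy cells: the third one is a zero cell in `J × J` -/
theorem two_heavy {e f : Finset V} {u v t a b c : V} (p : Pm P e f u v t a b c)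
    (h1 : 4 ≤ dW F P u a) (h2 : 4 ≤ dW F P v b) :
    Zr F P s j e f t c ∧ t ∉ N F x y ∧ c ∉ N F x y := by
  have k1 := dW_le_lb h u a
  have k2 := dW_le_lb h v b
  obtain ⟨w', hw'⟩ : (lb F P x y v b).Nonempty := by
    rw [← card_pos]
    omega
  obtain ⟨w, hw, hww⟩ := exists_mem_ne1 (A := lb F P x y u a) (by omega) w'
  refine ⟨⟨?_, zero_mm h p hw hw' hww⟩, zero_J h p hw hw' hww⟩
  have hn := norep h p
  have n1 := norep_fat (C := N F t c \ VS P) hn (by unfold RouteA.dW at h1; omega)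
  unfold RouteA.dW at h2 ⊢
  omega

/-- not all three cells are heavy -/
theorem not_three {e f : Finset V} {u v t a b c : V} (p : Pm P e f u v t a b c)
    (h1 : 4 ≤ dW F P u a) (h2 : 4 ≤ dW F P v b) : ¬ 4 ≤ dW F P t c := by
  have := (two_heavy h p h1 h2).1.1
  omega

/-- one heavy cell -/
theorem T3_heavy {e f : Finset V} {u v t a b c : V} (_hs : 3 ≤ s) (p : Pm P e f u v t a b c)
    (h1 : 4 ≤ dW F P u a) (h2 : ¬ 4 ≤ dW F P v b) (h3 : ¬ 4 ≤ dW F P t c) :
    T3 F P e f u v t a b c ≤ KB s j 1 := by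
  have k1 := dW_le_lb h u a
  have k2 := dW_le_lb h v b
  have k3 := dW_le_lb h t c
  have hl : (lb F P x y u a).Nonempty := by
    rw [← card_pos]
    omega
  have l1 := lam_le h u a
  have hA := T3_le h p
  have hB := T3_one4 h p hl
  have n1 := norep_fat (norep h p) (by unfold RouteA.dW at h1; omega)
  have e1 : (N F u a \ VS P).card = dW F P u a := rfl
  have e2 : (N F v b \ VS P).card = dW F P v b := rfl
  have e3 : (N F t c \ VS P).card = dW F P t c := rfl
  rw [e2, e3] at n1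
  have d1 : lam F P u a = dW F P u a - 2 := rfl
  have d2 : lam F P v b = dW F P v b - 2 := rfl
  have d3 : lam F P t c = dW F P t c - 2 := rfl
  unfold KB
  rw [if_neg (by norm_num), if_pos rfl, le_min_iff]
  refine ⟨?_, by omega⟩
  by_cases hc : dW F P v b + dW F P t c ≤ 2
  · omega
  -- one of them is empty and the other has three outside neighbours, so it has a label
  rcases n1 with n1 | n1 | n1
  · obtain ⟨w', hw'⟩ : (lb F P x y t c).Nonempty := by
      rw [← card_pos]
      omega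
    obtain ⟨w, hw, hww⟩ := exists_mem_ne1 (A := lb F P x y u a) (by omega) w'
    have hC := T3_two4 h p.swap23 hw hw' hww
    have : T3 F P e f u t v a c b = T3 F P e f u v t a b c := by unfold T3; ring
    omega
  · obtain ⟨w', hw'⟩ : (lb F P x y v b).Nonempty := by
      rw [← card_pos]
      omega
    obtain ⟨w, hw, hww⟩ := exists_mem_ne1 (A := lb F P x y u a) (by omega) w'
    have hC := T3_two4 h p hw hw' hww
    omega
  · omega

/-- no heavy cell -/
theorem T3_light {e f : Finset V} {u v t a b c : V} (p : Pm P e f u v t a b c)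
    (h1 : ¬ 4 ≤ dW F P u a) (h2 : ¬ 4 ≤ dW F P v b) (h3 : ¬ 4 ≤ dW F P t c) :
    lam F P u a + lam F P v b + lam F P t c ≤ 0 ∧ T3 F P e f u v t a b c ≤ -3 * (j : ℤ) := by
  have hS : lam F P u a + lam F P v b + lam F P t c ≤ 0 := by
    by_contra hcon
    push Not at hcon
    have hn := norep h p
    have n1 := norep_fat hn
    have n2 := norep_fat hn.rot
    have n3 := norep_fat hn.rot.rot
    have e1 : (N F u a \ VS P).card = dW F P u a := rfl
    have e2 : (N F v b \ VS P).card = dW F P v b := rfl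
    have e3 : (N F t c \ VS P).card = dW F P t c := rfl
    rw [e1, e2, e3] at n1 n2 n3
    unfold lam at hcon
    by_cases f1 : 3 ≤ dW F P u a
    · have := n1 f1
      omega
    by_cases f2 : 3 ≤ dW F P v b
    · have := n2 f2
      omega
    by_cases f3 : 3 ≤ dW F P t c
    · have := n3 f3
      omega
    omega
  have hA := T3_le h p
  exact ⟨hS, by omega⟩

/-- no heavy cell and a zero cell `tc` -/
theorem T3_light_zero {e f : Finset V} {u v t a b c : V} (hs : 3 ≤ s)
    (p : Pm P e f u v t a b c)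
    (h1 : ¬ 4 ≤ dW F P u a) (h2 : ¬ 4 ≤ dW F P v b) (h3 : Zr F P s j e f t c) :
    T3 F P e f u v t a b c ≤ KB s j 1 := by
  obtain ⟨z1, z2⟩ := h3
  obtain ⟨hS, hA⟩ := T3_light h p h1 h2 (by omega)
  have t1 := tau_le h p.he p.hf p.hef p.hu p.ha
  have t2 := tau_le h p.he p.hf p.hef p.hv p.hb
  have d1 : lam F P u a = dW F P u a - 2 := rfl
  have d2 : lam F P v b = dW F P v b - 2 := rfl
  have d3 : lam F P t c = dW F P t c - 2 := rfl
  have t3 := tau_mm (F := F) (P := P) e f t c
  unfold KB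
  rw [if_neg (by norm_num), if_pos rfl, le_min_iff]
  refine ⟨?_, by omega⟩
  unfold T3
  omega

/-- two heavy cells -/
theorem T3_heavy2 {e f : Finset V} {u v t a b c : V} (p : Pm P e f u v t a b c)
    (h1 : 4 ≤ dW F P u a) (h2 : 4 ≤ dW F P v b) : T3 F P e f u v t a b c ≤ KB s j 2 := by
  obtain ⟨⟨z1, z2⟩, -, -⟩ := two_heavy h p h1 h2
  have l1 := lam_le h u a
  have l2 := lam_le h v b
  have hA := T3_le h p
  have t1 := tau_le h p.he p.hf p.hef p.hu p.ha
  have t2 := tau_le h p.he p.hf p.hef p.hv p.hb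
  have d3 : lam F P t c = dW F P t c - 2 := rfl
  have t3 := tau_mm (F := F) (P := P) e f t c
  unfold KB
  rw [if_neg (by norm_num), if_neg (by norm_num), if_pos rfl, le_min_iff]
  refine ⟨?_, by omega⟩
  unfold T3
  omega

/-- two zero cells `vb`, `tc` -/
theorem T3_zero2 {e f : Finset V} {u v t a b c : V} (p : Pm P e f u v t a b c)
    (h2 : Zr F P s j e f v b) (h3 : Zr F P s j e f t c) :
    T3 F P e f u v t a b c ≤ KB s j 3 := by
  obtain ⟨z1, z2⟩ := h2
  obtain ⟨z3, z4⟩ := h3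
  have l1 := lam_le h u a
  have hA := T3_le h p
  have t1 := tau_le h p.he p.hf p.hef p.hu p.ha
  have d2 : lam F P v b = dW F P v b - 2 := rfl
  have d3 : lam F P t c = dW F P t c - 2 := rfl
  have t2 := tau_mm (F := F) (P := P) e f v b
  have t3 := tau_mm (F := F) (P := P) e f t c
  unfold KB
  rw [if_neg (by norm_num), if_neg (by norm_num), if_neg (by norm_num), le_min_iff]
  refine ⟨?_, by omega⟩
  unfold T3
  omega

/-- **the bound by the kind of the matching** -/
theorem T3_kd {e f : Finset V} {u v t a b c : V} (hs : 3 ≤ s) (p : Pm P e f u v t a b c)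
    {z1 z2 z3 : Bool} (k1 : z1 = true → Zr F P s j e f u a)
    (k2 : z2 = true → Zr F P s j e f v b) (k3 : z3 = true → Zr F P s j e f t c) :
    T3 F P e f u v t a b c ≤ KB s j (kd (hv F P u a) (hv F P v b) (hv F P t c) z1 z2 z3) := by
  have r1 : T3 F P e f v t u b c a = T3 F P e f u v t a b c := T3_rot _ _ _ _ _ _ _ _
  have r2 : T3 F P e f t u v c a b = T3 F P e f u v t a b c := by unfold T3; ring
  by_cases a1 : 4 ≤ dW F P u a <;> by_cases a2 : 4 ≤ dW F P v b <;>
    by_cases a3 : 4 ≤ dW F P t c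
  · exact absurd a3 (not_three h p a1 a2)
  · have : kd (hv F P u a) (hv F P v b) (hv F P t c) z1 z2 z3 = 2 := by
      rw [hv_iff.2 a1, hv_iff.2 a2]
      cases hv F P t c <;> rfl
    rw [this]
    exact T3_heavy2 h p a1 a2
  · have : kd (hv F P u a) (hv F P v b) (hv F P t c) z1 z2 z3 = 2 := by
      rw [hv_iff.2 a1, hv_iff.2 a3]
      cases hv F P v b <;> rfl
    rw [this, ← r2]
    exact T3_heavy2 h p.rot.rot a3 a1
  · have b2 : hv F P v b = false := by
      unfold hv; rw [decide_eq_false_iff_not]; exact a2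
    have b3 : hv F P t c = false := by
      unfold hv; rw [decide_eq_false_iff_not]; exact a3
    rw [hv_iff.2 a1, b2, b3]
    have hz1 : z1 = false := by
      cases z1
      · rfl
      · have := (k1 rfl).1
        omega
    subst hz1
    cases z2 <;> cases z3
    · exact T3_heavy h hs p a1 a2 a3
    · exact T3_heavy h hs p a1 a2 a3
    · exact T3_heavy h hs p a1 a2 a3
    · exact T3_zero2 h p (k2 rfl) (k3 rfl)
  · have : kd (hv F P u a) (hv F P v b) (hv F P t c) z1 z2 z3 = 2 := by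
      rw [hv_iff.2 a2, hv_iff.2 a3]
      cases hv F P u a <;> rfl
    rw [this, ← r1]
    exact T3_heavy2 h p.rot a2 a3
  · have b1 : hv F P u a = false := by
      unfold hv; rw [decide_eq_false_iff_not]; exact a1
    have b3 : hv F P t c = false := by
      unfold hv; rw [decide_eq_false_iff_not]; exact a3
    rw [hv_iff.2 a2, b1, b3, ← r1]
    have hz2 : z2 = false := by
      cases z2
      · rfl
      · have := (k2 rfl).1
        omega
    subst hz2
    cases z1 <;> cases z3
    · exact T3_heavy h hs p.rot a2 a3 a1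
    · exact T3_heavy h hs p.rot a2 a3 a1
    · exact T3_heavy h hs p.rot a2 a3 a1
    · exact T3_zero2 h p.rot (k3 rfl) (k1 rfl)
  · have b1 : hv F P u a = false := by
      unfold hv; rw [decide_eq_false_iff_not]; exact a1
    have b2 : hv F P v b = false := by
      unfold hv; rw [decide_eq_false_iff_not]; exact a2
    rw [hv_iff.2 a3, b1, b2, ← r2]
    have hz3 : z3 = false := by
      cases z3
      · rfl
      · have := (k3 rfl).1
        omega
    subst hz3
    cases z1 <;> cases z2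
    · exact T3_heavy h hs p.rot.rot a3 a1 a2
    · exact T3_heavy h hs p.rot.rot a3 a1 a2
    · exact T3_heavy h hs p.rot.rot a3 a1 a2
    · exact T3_zero2 h p.rot.rot (k1 rfl) (k2 rfl)
  · have b1 : hv F P u a = false := by
      unfold hv; rw [decide_eq_false_iff_not]; exact a1
    have b2 : hv F P v b = false := by
      unfold hv; rw [decide_eq_false_iff_not]; exact a2
    have b3 : hv F P t c = false := by
      unfold hv; rw [decide_eq_false_iff_not]; exact a3
    rw [b1, b2, b3]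
    cases z1 <;> cases z2 <;> cases z3
    · exact (T3_light h p a1 a2 a3).2
    · exact T3_light_zero h hs p a1 a2 (k3 rfl)
    · rw [← r2]; exact T3_light_zero h hs p.rot.rot a3 a1 (k2 rfl)
    · exact T3_zero2 h p (k2 rfl) (k3 rfl)
    · rw [← r1]; exact T3_light_zero h hs p.rot a2 a3 (k1 rfl)
    · rw [← r1]; exact T3_zero2 h p.rot (k3 rfl) (k1 rfl)
    · rw [← r2]; exact T3_zero2 h p.rot.rot (k1 rfl) (k2 rfl)
    · exact T3_zero2 h p (k2 rfl) (k3 rfl)

/-- zero cells from the boolean pattern: `p` is a matching through the cell and two others -/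
theorem zero_spec {e f : Finset V} {u v t a b c : V} (p : Pm P e f u v t a b c)
    (hz : zero1 (hv F P u a) (hv F P v b) (hv F P t c) (hv F P v c) (hv F P t b) = true) :
    Zr F P s j e f u a := by
  unfold zero1 at hz
  rw [Bool.and_eq_true, Bool.or_eq_true, Bool.and_eq_true, Bool.and_eq_true] at hz
  obtain ⟨-, ⟨h1, h2⟩ | ⟨h1, h2⟩⟩ := hz
  · exact (two_heavy h p.rot (hv_iff.1 h1) (hv_iff.1 h2)).1
  · exact (two_heavy h p.cols.rot (hv_iff.1 h1) (hv_iff.1 h2)).1

/-- the rule for one matching -/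
theorem rl_spec {e f : Finset V} {u v t a b c : V} (p : Pm P e f u v t a b c) :
    rl (hv F P u a) (hv F P v b) (hv F P t c) (jf F x y u && jf F x y a)
      (jf F x y v && jf F x y b) (jf F x y t && jf F x y c) = true := by
  have key : ∀ {u v t a b c : V}, Pm P e f u v t a b c → hv F P u a = true →
      hv F P v b = true → (hv F P t c = false ∧ (jf F x y t && jf F x y c) = true) := by
    intro u v t a b c p h1 h2
    obtain ⟨⟨z1, -⟩, z3, z4⟩ := two_heavy h p (hv_iff.1 h1) (hv_iff.1 h2)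
    constructor
    · unfold hv
      rw [decide_eq_false_iff_not]
      omega
    · unfold jf
      rw [Bool.and_eq_true, decide_eq_true_iff, decide_eq_true_iff]
      exact ⟨z3, z4⟩
  have k1 := key p
  have k2 := key p.rot
  have k3 := key p.rot.rot
  unfold rl
  generalize hv F P u a = A at *
  generalize hv F P v b = B at *
  generalize hv F P t c = C at *
  generalize (jf F x y u && jf F x y a) = X at *
  generalize (jf F x y v && jf F x y b) = Y at *
  generalize (jf F x y t && jf F x y c) = Z at *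
  cases A <;> cases B <;> cases C <;> simp_all

/-- the type of a block in coordinates -/
theorem ty_cb {e : Finset V} (he : e ∈ P) {u v t : V} (hu : u ∈ e) (hv : v ∈ e) (ht : t ∈ e)
    (huv : u ≠ v) (hut : u ≠ t) (hvt : v ≠ t) :
    ty F x y e = cb (jf F x y u) (jf F x y v) (jf F x y t) := by
  have hk : ∀ z : V, ep F x y z = (jf F x y z).toNat := by
    intro z
    unfold ep jf
    by_cases hz : z ∈ N F x y
    · rw [if_pos hz]
      simp [hz]
    · rw [if_neg hz]
      simp [hz]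
  rw [ty_eq, ← block_eq h he hu hv ht huv hut hvt, sum3 huv hut hvt, hk, hk, hk]
  rfl

end

theorem kd_le (a b c x y z : Bool) : kd a b c x y z ≤ 3 := by
  unfold kd
  split_ifs <;> omega

theorem sum_count (A : ℕ → ℤ) (l : List ℕ) (hl : ∀ k ∈ l, k ≤ 3) :
    (l.map A).sum = l.count 0 * A 0 + l.count 1 * A 1 + l.count 2 * A 2 + l.count 3 * A 3 := by
  induction l with
  | nil => simp
  | cons k l ih =>
    rw [List.map_cons, List.sum_cons, ih (fun m hm => hl m (List.mem_cons_of_mem _ hm))]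
    have hk := hl k List.mem_cons_self
    simp only [List.count_cons]
    rcases (by omega : k = 0 ∨ k = 1 ∨ k = 2 ∨ k = 3) with rfl | rfl | rfl | rfl
    · norm_num
      ring
    · norm_num
      ring
    · norm_num
      ring
    · norm_num
      ring

/-- the possible vectors of kinds for two blocks of types `i`, `k` -/
def Adm (i k n0 n1 n2 n3 : ℕ) : Prop :=
  (n0 = 6 ∧ n1 = 0 ∧ n2 = 0 ∧ n3 = 0) ∨ (n0 = 4 ∧ n1 = 2 ∧ n2 = 0 ∧ n3 = 0) ∨
  (n0 = 2 ∧ n1 = 4 ∧ n2 = 0 ∧ n3 = 0) ∨ (n0 = 0 ∧ n1 = 6 ∧ n2 = 0 ∧ n3 = 0) ∨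
  ((1 ≤ i ∧ 1 ≤ k) ∧ ((n0 = 2 ∧ n1 = 3 ∧ n2 = 1 ∧ n3 = 0) ∨
    (n0 = 1 ∧ n1 = 4 ∧ n2 = 1 ∧ n3 = 0) ∨ (n0 = 0 ∧ n1 = 4 ∧ n2 = 2 ∧ n3 = 0))) ∨
  ((2 ≤ i ∧ 2 ≤ k) ∧ (n0 = 0 ∧ n1 = 0 ∧ n2 = 4 ∧ n3 = 2)) ∨
  (((3 ≤ i ∧ 1 ≤ k) ∨ (1 ≤ i ∧ 3 ≤ k)) ∧ ((n0 = 0 ∧ n1 = 0 ∧ n2 = 6 ∧ n3 = 0) ∨
    (n0 = 0 ∧ n1 = 2 ∧ n2 = 4 ∧ n3 = 0) ∨ (n0 = 0 ∧ n1 = 3 ∧ n2 = 3 ∧ n3 = 0)))

theorem adm_of_good {l : List ℕ} {i k : ℕ} (hg : good l i k = true) :
    Adm i k (l.count 0) (l.count 1) (l.count 2) (l.count 3) := by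
  unfold good at hg
  simp only [Bool.or_eq_true, Bool.and_eq_true, decide_eq_true_eq, beq_iff_eq,
    Prod.mk.injEq] at hg
  unfold Adm
  rcases hg with (((((hg | hg) | hg) | hg) | ⟨⟨g1, g2⟩, (hg | hg) | hg⟩) | ⟨⟨g1, g2⟩, hg⟩) |
    ⟨g1, (hg | hg) | hg⟩
  · exact Or.inl hg
  · exact Or.inr (Or.inl hg)
  · exact Or.inr (Or.inr (Or.inl hg))
  · exact Or.inr (Or.inr (Or.inr (Or.inl hg)))
  · exact Or.inr (Or.inr (Or.inr (Or.inr (Or.inl ⟨⟨g1, g2⟩, Or.inl hg⟩))))
  · exact Or.inr (Or.inr (Or.inr (Or.inr (Or.inl ⟨⟨g1, g2⟩, Or.inr (Or.inl hg)⟩))))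
  · exact Or.inr (Or.inr (Or.inr (Or.inr (Or.inl ⟨⟨g1, g2⟩, Or.inr (Or.inr hg)⟩))))
  · exact Or.inr (Or.inr (Or.inr (Or.inr (Or.inr (Or.inl ⟨⟨g1, g2⟩, hg⟩)))))
  · exact Or.inr (Or.inr (Or.inr (Or.inr (Or.inr (Or.inr ⟨g1, Or.inl hg⟩)))))
  · exact Or.inr (Or.inr (Or.inr (Or.inr (Or.inr (Or.inr ⟨g1, Or.inr (Or.inl hg)⟩)))))
  · exact Or.inr (Or.inr (Or.inr (Or.inr (Or.inr (Or.inr ⟨g1, Or.inr (Or.inr hg)⟩)))))

/-- **the pair theorem** -/
theorem pair_bound (h : SetUp F s j P x y) (hs : 3 ≤ s) {e f : Finset V} (he : e ∈ P)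
    (hf : f ∈ P) (hef : e ≠ f) :
    ∃ n0 n1 n2 n3 : ℕ, Adm (ty F x y e) (ty F x y f) n0 n1 n2 n3 ∧
      2 * ∑ a ∈ e, ∑ b ∈ f, tau F P e f a b ≤
        n0 * KB s j 0 + n1 * KB s j 1 + n2 * KB s j 2 + n3 * KB s j 3 := by
  obtain ⟨u, v, t, a, b, c, p⟩ := exists_pm h.threeP he hf hef
  have p2 : Pm P e f u v t b c a := ⟨p.he, p.hf, p.hef, p.hu, p.hv, p.ht, p.hb, p.hc, p.ha,
    p.huv, p.hut, p.hvt, p.hbc, p.hab.symm, p.hac.symm⟩
  have p3 : Pm P e f u v t c a b := ⟨p.he, p.hf, p.hef, p.hu, p.hv, p.ht, p.hc, p.ha, p.hb,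
    p.huv, p.hut, p.hvt, p.hac.symm, p.hbc.symm, p.hab⟩
  have p4 : Pm P e f u v t a c b := p.cols
  have p5 : Pm P e f u v t c b a := p3.cols
  have p6 : Pm P e f u v t b a c := p2.cols
  have z00 := zero_spec h p
  have z01 := zero_spec h p6
  have z02 := zero_spec h p3
  have z10 := zero_spec h (u := v) (v := u) (t := t) (a := a) (b := b) (c := c) p6.swap
  have z11 := zero_spec h (u := v) (v := u) (t := t) (a := b) (b := a) (c := c) p.swap
  have z12 := zero_spec h (u := v) (v := u) (t := t) (a := c) (b := a) (c := b) p4.swap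
  have z20 := zero_spec h (u := t) (v := u) (t := v) (a := a) (b := b) (c := c) p2.rot.rot
  have z21 := zero_spec h (u := t) (v := u) (t := v) (a := b) (b := a) (c := c) p4.rot.rot
  have z22 := zero_spec h (u := t) (v := u) (t := v) (a := c) (b := a) (c := b) p.rot.rot
  have b1 := T3_kd h hs p z00 z11 z22
  have b2 := T3_kd h hs p2 z01 z12 z20
  have b3 := T3_kd h hs p3 z02 z10 z21
  have b4 := T3_kd h hs p4 z00 z12 z21
  have b5 := T3_kd h hs p5 z02 z11 z20
  have b6 := T3_kd h hs p6 z01 z10 z22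
  have hrule : rule (hv F P u a) (hv F P u b) (hv F P u c) (hv F P v a) (hv F P v b)
      (hv F P v c) (hv F P t a) (hv F P t b) (hv F P t c) (jf F x y u) (jf F x y v)
      (jf F x y t) (jf F x y a) (jf F x y b) (jf F x y c) = true := by
    unfold rule
    rw [rl_spec h p, rl_spec h p2, rl_spec h p3, rl_spec h p4, rl_spec h p5, rl_spec h p6]
    rfl
  have hgood := adm_of_good (pattern _ _ _ _ _ _ _ _ _ _ _ _ _ _ _ hrule)
  rw [← ty_cb h he p.hu p.hv p.ht p.huv p.hut p.hvt,
    ← ty_cb h hf p.ha p.hb p.hc p.hab p.hac p.hbc] at hgood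
  refine ⟨_, _, _, _, hgood, ?_⟩
  have hsum := two_sum (tau F P e f) p h.threeP
  have hcount := sum_count (KB s j) (kinds (hv F P u a) (hv F P u b) (hv F P u c) (hv F P v a)
      (hv F P v b) (hv F P v c) (hv F P t a) (hv F P t b) (hv F P t c)) (by
    intro k hk
    unfold kinds at hk
    simp only [List.mem_cons, List.not_mem_nil, or_false] at hk
    rcases hk with rfl | rfl | rfl | rfl | rfl | rfl <;> exact kd_le _ _ _ _ _ _)
  rw [← hcount, hsum]
  unfold T3 at b1 b2 b3 b4 b5 b6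
  clear hcount hsum hgood hrule z00 z01 z02 z10 z11 z12 z20 z21 z22
  unfold kinds
  simp only [List.map_cons, List.map_nil, List.sum_cons, List.sum_nil]
  linarith

end Helper9.Res
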