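import Pool.Agent.Helper9.Res.Pair

/-!
# Route A: the sum over the six perfect matchings of two blocks

A matching is bounded by `AB`, or it has exactly one cell without outside neighbours, this cell is
in `J × J`, and the bound is `CC`.
-/

namespace Helper9.Res

open Finset Res12 RouteA Helper1.Res Helper54.Res Helper70.Res

set_option linter.unusedSectionVars false

variable {V : Type} [Fintype V] [DecidableEq V]
variable {F P : Finset (Finset V)} {s j : ℕ} {x y : V}

/-- the bound for the matchings which are not of class II -/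
def AB (s j : ℕ) : ℤ := max (-3 * (j : ℤ)) (min (-((s : ℤ) + 4)) (2 * s - 4 - 3 * j))

/-- the bound for the matchings of class II -/
def CC (s j : ℕ) : ℤ := min ((s : ℤ) - 6 - j) (4 * s - 4 - 3 * j)

/-- the maximal number of matchings of class II -/
def n2 (i k : ℕ) : ℕ :=
  if i = 0 ∨ k = 0 then 0 else if 3 ≤ i ∨ 3 ≤ k then 6 else if i = 1 ∧ k = 1 then 2 else 4

/-- exactly one of the three cells is empty and this one has both flags -/
def cand (a b c p q r : Bool) : Bool :=
  (a && !b && !c && p) || (!a && b && !c && q) || (!a && !b && c && r)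

/-- the number of candidates among the six matchings; `zik` says that the cell is empty -/
def ncand (z00 z01 z02 z10 z11 z12 z20 z21 z22 e0 e1 e2 f0 f1 f2 : Bool) : ℕ :=
  (cand z00 z11 z22 (e0 && f0) (e1 && f1) (e2 && f2)).toNat +
  (cand z00 z12 z21 (e0 && f0) (e1 && f2) (e2 && f1)).toNat +
  (cand z01 z10 z22 (e0 && f1) (e1 && f0) (e2 && f2)).toNat +
  (cand z01 z12 z20 (e0 && f1) (e1 && f2) (e2 && f0)).toNat +
  (cand z02 z10 z21 (e0 && f2) (e1 && f0) (e2 && f1)).toNat +
  (cand z02 z11 z20 (e0 && f2) (e1 && f1) (e2 && f0)).toNat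

def statement2 : Prop := ∀ z00 z01 z02 z10 z11 z12 z20 z21 z22 e0 e1 e2 f0 f1 f2 : Bool,
  ncand z00 z01 z02 z10 z11 z12 z20 z21 z22 e0 e1 e2 f0 f1 f2 ≤ n2 (cb e0 e1 e2) (cb f0 f1 f2)

instance : Decidable statement2 := by
  unfold statement2
  infer_instance

theorem pattern2 : statement2 := by
  decide +kernel

/-- an empty cell -/
def zf (F P : Finset (Finset V)) (a b : V) : Bool := decide (RouteA.dW F P a b = 0)

section
variable (h : SetUp F s j P x y)
include h

/-- `Bet` with the inner kills -/
theorem Bet.AB {e f : Finset V} {u v t a b c : V} (p : Pm P e f u v t a b c)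
    (g : Bet F P x y s e f u v t a b c) : T3 F P e f u v t a b c ≤ AB s j := by
  obtain ⟨g1, g2, g3, -⟩ := g
  have h1 := T3_one4 h p g1
  have h2 := T3_le h p
  have h3 := lam_le h u a
  refine le_max_of_le_right (le_min ?_ ?_)
  · omega
  · omega

/-- `Gam` with the inner kills -/
theorem Gam.CC {e f : Finset V} {u v t a b c : V} (p : Pm P e f u v t a b c)
    (g : Gam F P x y s j e f u v t a b c) : T3 F P e f u v t a b c ≤ CC s j ∧
      cand (zf F P u a) (zf F P v b) (zf F P t c) (jf F x y u && jf F x y a)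
        (jf F x y v && jf F x y b) (jf F x y t && jf F x y c) = true := by
  obtain ⟨g1, g2, ⟨w, hw, w', hw', hww⟩, g4, g5, -⟩ := g
  have h1 := T3_two4 h p hw hw' hww
  have h2 := T3_le h p
  have h3 := lam_le h u a
  have h4 := lam_le h v b
  have h5 : lam F P t c = dW F P t c - 2 := rfl
  constructor
  · refine le_min ?_ ?_
    · omega
    · omega
  · have k1 := lb_card_le h u a
    have k2 := lb_card_le h v b
    have k3 : 0 < (lb F P x y u a).card := card_pos.2 ⟨w, hw⟩
    have k4 : 0 < (lb F P x y v b).card := card_pos.2 ⟨w', hw'⟩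
    have z1 : zf F P u a = false := by
      unfold zf; rw [decide_eq_false_iff_not]; omega
    have z2 : zf F P v b = false := by
      unfold zf; rw [decide_eq_false_iff_not]; omega
    have z3 : zf F P t c = true := by
      unfold zf; rw [decide_eq_true_iff]; exact g4
    have j1 : jf F x y t = true := by
      unfold jf; rw [decide_eq_true_iff]; exact g1
    have j2 : jf F x y c = true := by
      unfold jf; rw [decide_eq_true_iff]; exact g2
    rw [z1, z2, z3, j1, j2]
    unfold cand
    simp

/-- **one matching** -/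
theorem one_le {e f : Finset V} {u v t a b c : V} (p : Pm P e f u v t a b c) :
    T3 F P e f u v t a b c ≤ AB s j + (max (AB s j) (CC s j) - AB s j) *
      ((cand (zf F P u a) (zf F P v b) (zf F P t c) (jf F x y u && jf F x y a)
        (jf F x y v && jf F x y b) (jf F x y t && jf F x y c)).toNat : ℤ) := by
  have r1 : T3 F P e f v t u b c a = T3 F P e f u v t a b c := T3_rot _ _ _ _ _ _ _ _
  have r2 : T3 F P e f t u v c a b = T3 F P e f u v t a b c := by unfold T3; ring
  have r3 : T3 F P e f v u t b a c = T3 F P e f u v t a b c := T3_swap _ _ _ _ _ _ _ _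
  have r4 : T3 F P e f t v u c b a = T3 F P e f u v t a b c := by unfold T3; ring
  have r5 : T3 F P e f u t v a c b = T3 F P e f u v t a b c := by unfold T3; ring
  have hmax : 0 ≤ max (AB s j) (CC s j) - AB s j := sub_nonneg.2 (le_max_left _ _)
  have small : T3 F P e f u v t a b c ≤ AB s j → T3 F P e f u v t a b c ≤ AB s j +
      (max (AB s j) (CC s j) - AB s j) *
      ((cand (zf F P u a) (zf F P v b) (zf F P t c) (jf F x y u && jf F x y a)
        (jf F x y v && jf F x y b) (jf F x y t && jf F x y c)).toNat : ℤ) := by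
    intro h1
    have : 0 ≤ (max (AB s j) (CC s j) - AB s j) *
      ((cand (zf F P u a) (zf F P v b) (zf F P t c) (jf F x y u && jf F x y a)
        (jf F x y v && jf F x y b) (jf F x y t && jf F x y c)).toNat : ℤ) :=
      mul_nonneg hmax (Int.natCast_nonneg _)
    linarith
  have big : T3 F P e f u v t a b c ≤ CC s j →
      cand (zf F P u a) (zf F P v b) (zf F P t c) (jf F x y u && jf F x y a)
        (jf F x y v && jf F x y b) (jf F x y t && jf F x y c) = true →
      T3 F P e f u v t a b c ≤ AB s j +
      (max (AB s j) (CC s j) - AB s j) *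
      ((cand (zf F P u a) (zf F P v b) (zf F P t c) (jf F x y u && jf F x y a)
        (jf F x y v && jf F x y b) (jf F x y t && jf F x y c)).toNat : ℤ) := by
    intro h1 h2
    rw [h2]
    have h3 : CC s j ≤ max (AB s j) (CC s j) := le_max_right _ _
    have : ((true.toNat : ℕ) : ℤ) = 1 := rfl
    rw [this]
    linarith
  have rotc : ∀ a b c p q r : Bool, cand b c a q r p = cand a b c p q r := by
    decide
  rcases cls h p with ⟨h1, h2⟩ | (k | k | k | k | k | k) | (k | k | k)
  · refine small (le_max_of_le_left ?_)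
    omega
  · exact small (k.AB h p)
  · exact small (r1 ▸ k.AB h p.rot)
  · exact small (r2 ▸ k.AB h p.rot.rot)
  · exact small (r3 ▸ k.AB h p.swap)
  · exact small (r4 ▸ k.AB h p.rot.swap)
  · exact small (r5 ▸ k.AB h p.swap23)
  · obtain ⟨c1, c2⟩ := k.CC h p
    exact big c1 c2
  · obtain ⟨c1, c2⟩ := k.CC h p.rot
    rw [r1] at c1
    rw [rotc] at c2
    exact big c1 c2
  · obtain ⟨c1, c2⟩ := k.CC h p.rot.rot
    rw [r2] at c1
    rw [rotc, rotc] at c2
    exact big c1 c2

/-- **the six matchings of two blocks** -/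
theorem six_le {e f : Finset V} {u v t a b c : V} (p : Pm P e f u v t a b c) :
    T3 F P e f u v t a b c + T3 F P e f u v t a c b + T3 F P e f u v t b a c +
      T3 F P e f u v t b c a + T3 F P e f u v t c a b + T3 F P e f u v t c b a ≤
    (n2 (ty F x y e) (ty F x y f) : ℤ) * max (AB s j) (CC s j) +
      (6 - (n2 (ty F x y e) (ty F x y f) : ℤ)) * AB s j := by
  have p2 : Pm P e f u v t b c a := ⟨p.he, p.hf, p.hef, p.hu, p.hv, p.ht, p.hb, p.hc, p.ha,
    p.huv, p.hut, p.hvt, p.hbc, p.hab.symm, p.hac.symm⟩
  have p3 : Pm P e f u v t c a b := ⟨p.he, p.hf, p.hef, p.hu, p.hv, p.ht, p.hc, p.ha, p.hb,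
    p.huv, p.hut, p.hvt, p.hac.symm, p.hbc.symm, p.hab⟩
  have b1 := one_le h p
  have b2 := one_le h p.cols
  have b3 := one_le h p2.cols
  have b4 := one_le h p2
  have b5 := one_le h p3
  have b6 := one_le h p3.cols
  have hN := pattern2 (zf F P u a) (zf F P u b) (zf F P u c) (zf F P v a) (zf F P v b)
    (zf F P v c) (zf F P t a) (zf F P t b) (zf F P t c) (jf F x y u) (jf F x y v) (jf F x y t)
    (jf F x y a) (jf F x y b) (jf F x y c)
  rw [← ty_cb h p.he p.hu p.hv p.ht p.huv p.hut p.hvt,
    ← ty_cb h p.hf p.ha p.hb p.hc p.hab p.hac p.hbc] at hN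
  unfold ncand at hN
  have hmax : 0 ≤ max (AB s j) (CC s j) - AB s j := sub_nonneg.2 (le_max_left _ _)
  have hN' : ((cand (zf F P u a) (zf F P v b) (zf F P t c) (jf F x y u && jf F x y a)
        (jf F x y v && jf F x y b) (jf F x y t && jf F x y c)).toNat : ℤ) +
      ((cand (zf F P u a) (zf F P v c) (zf F P t b) (jf F x y u && jf F x y a)
        (jf F x y v && jf F x y c) (jf F x y t && jf F x y b)).toNat : ℤ) +
      ((cand (zf F P u b) (zf F P v a) (zf F P t c) (jf F x y u && jf F x y b)
        (jf F x y v && jf F x y a) (jf F x y t && jf F x y c)).toNat : ℤ) +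
      ((cand (zf F P u b) (zf F P v c) (zf F P t a) (jf F x y u && jf F x y b)
        (jf F x y v && jf F x y c) (jf F x y t && jf F x y a)).toNat : ℤ) +
      ((cand (zf F P u c) (zf F P v a) (zf F P t b) (jf F x y u && jf F x y c)
        (jf F x y v && jf F x y a) (jf F x y t && jf F x y b)).toNat : ℤ) +
      ((cand (zf F P u c) (zf F P v b) (zf F P t a) (jf F x y u && jf F x y c)
        (jf F x y v && jf F x y b) (jf F x y t && jf F x y a)).toNat : ℤ) ≤
      (n2 (ty F x y e) (ty F x y f) : ℤ) := by
    exact_mod_cast hN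
  have h7 := mul_le_mul_of_nonneg_left hN' hmax
  nlinarith [h7, b1, b2, b3, b4, b5, b6]

end

end Helper9.Res
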